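import Pool.Agent.H86.DA.Stm

set_option autoImplicit false

/-! A decreasing chain of sets of residues contains a member that is nearly invariant. -/

namespace Pool.Agent.H86.DA
open Finset

lemma PS_succ (b k n e : ℕ) (h : PS b k n) : PS b (k + 1) (n + b ^ e) := by
  obtain ⟨l, h1, h2⟩ := h
  refine ⟨e :: l, by simpa using h1, ?_⟩
  rw [h2]
  simp [add_comm]

lemma PS_zero' (b k : ℕ) : PS b k 0 := ⟨[], by simp, by simp⟩

open Classical in
/-- the residues which are not represented with at most `j` powers -/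
noncomputable def Bd (b K : ℕ) (H : Set ℕ) (j : ℕ) : Finset ℕ :=
  (range (b ^ K)).filter fun n => ¬ ∃ h ∈ H, ∃ l ≤ j * b ^ K, PS b j l ∧ (h + l) % b ^ K = n

lemma mem_Bd (b K : ℕ) (H : Set ℕ) (j n : ℕ) :
    n ∈ Bd b K H j ↔ n < b ^ K ∧ ¬ ∃ h ∈ H, ∃ l ≤ j * b ^ K, PS b j l ∧ (h + l) % b ^ K = n := by
  classical
  simp only [Bd, mem_filter, mem_range]

lemma Bd_sub (b K : ℕ) (H : Set ℕ) (j : ℕ) : Bd b K H j ⊆ range (b ^ K) := fun n hn =>
  mem_range.2 ((mem_Bd b K H j n).1 hn).1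

lemma Bd_anti (b K : ℕ) (H : Set ℕ) (j : ℕ) : Bd b K H (j + 1) ⊆ Bd b K H j := by
  intro n hn
  rw [mem_Bd] at *
  refine ⟨hn.1, ?_⟩
  rintro ⟨h, hh, l, hl, hp, he⟩
  apply hn.2
  obtain ⟨l', h1, h2⟩ := hp
  exact ⟨h, hh, l, hl.trans (Nat.mul_le_mul_right _ (by omega)), ⟨l', by omega, h2⟩, he⟩

lemma Bd_le (b K : ℕ) (H : Set ℕ) : ∀ d j : ℕ, Bd b K H (j + d) ⊆ Bd b K H j := by
  intro d
  induction d with
  | zero => intro j; exact Subset.refl _
  | succ d ih =>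
    intro j
    exact (Bd_anti b K H (j + d)).trans (ih j)

/-- subtraction of a power -/
lemma Bd_step (b K : ℕ) (hb : 2 ≤ b) (H : Set ℕ) (j a e : ℕ) (he : e < K) (ha : a ∈ Bd b K H (j + 1)) :
    (a + (b ^ K - b ^ e)) % b ^ K ∈ Bd b K H j := by
  have hle : b ^ e ≤ b ^ K := Nat.pow_le_pow_right (by omega) he.le
  have hM : 0 < b ^ K := Nat.pow_pos (by omega)
  rw [mem_Bd] at *
  refine ⟨Nat.mod_lt _ hM, ?_⟩
  rintro ⟨h, hh, l, hl, hp, hm⟩
  apply ha.2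
  refine ⟨h, hh, l + b ^ e, ?_, PS_succ b j l e hp, ?_⟩
  · rw [Nat.succ_mul]
    exact Nat.add_le_add hl hle
  · have h1 : (h + (l + b ^ e)) % b ^ K = ((h + l) % b ^ K + b ^ e) % b ^ K := by
      rw [← add_assoc, Nat.mod_add_mod]
    rw [h1, hm, Nat.mod_add_mod]
    have h2 : a + (b ^ K - b ^ e) + b ^ e = a + b ^ K := by omega
    rw [h2, Nat.add_mod_right]
    exact Nat.mod_eq_of_lt ha.1

lemma pigeon (a : ℕ → ℝ) (J : ℕ) (hJ : 1 ≤ J) (M : ℝ) (h0 : a 0 ≤ M) (h1 : 0 ≤ a J) :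
    ∃ j < J, a j - a (j + 1) ≤ 1 / J * M := by
  by_contra hcon
  push Not at hcon
  have hJr : (0 : ℝ) < J := by exact_mod_cast hJ
  have h2 : ∑ j ∈ range J, (1 / J * M) < ∑ j ∈ range J, (a j - a (j + 1)) := by
    apply sum_lt_sum_of_nonempty
    · exact ⟨0, mem_range.2 (by omega)⟩
    · intro j hj
      exact hcon j (mem_range.1 hj)
  rw [sum_const, card_range, nsmul_eq_mul] at h2
  have h3 : ∑ j ∈ range J, (a j - a (j + 1)) = a 0 - a J := sum_range_sub' a J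
  rw [h3] at h2
  have h4 : (J : ℝ) * (1 / J * M) = M := by field_simp
  rw [h4] at h2
  linarith

theorem chain (b K J : ℕ) (hb : 2 ≤ b) (hJ : 1 ≤ J) (H : Set ℕ) (ε : ℝ)
    (hbad : ε * (b : ℝ) ^ K ≤ ({n : ℕ | n < b ^ K ∧ ¬ ∃ h ∈ H, ∃ l ≤ J * b ^ K, PS b J l ∧ (h + l) % b ^ K = n}.ncard : ℝ)) :
    ∃ A ⊆ range (b ^ K), ε * (b : ℝ) ^ K ≤ A.card ∧ (∀ h ∈ H, h % b ^ K ∉ A) ∧
      ∀ e < K, ((A.filter fun a => (a + (b ^ K - b ^ e)) % b ^ K ∉ A).card : ℝ) ≤ 1 / J * (b : ℝ) ^ K := by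
  classical
  have hM : 0 < b ^ K := Nat.pow_pos (by omega)
  have hJB : {n : ℕ | n < b ^ K ∧ ¬ ∃ h ∈ H, ∃ l ≤ J * b ^ K, PS b J l ∧ (h + l) % b ^ K = n} = (Bd b K H J : Set ℕ) := by
    ext n
    rw [mem_coe, mem_Bd]
    exact Iff.rfl
  rw [hJB, Set.ncard_coe_finset] at hbad
  obtain ⟨j, hj, hjj⟩ := pigeon (fun j => ((Bd b K H j).card : ℝ)) J hJ ((b : ℝ) ^ K) (by
    have h1 : (Bd b K H 0).card ≤ (range (b ^ K)).card := card_le_card (Bd_sub b K H 0)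
    rw [card_range] at h1
    exact_mod_cast h1) (Nat.cast_nonneg _)
  refine ⟨Bd b K H (j + 1), Bd_sub b K H (j + 1), ?_, ?_, ?_⟩
  · refine hbad.trans ?_
    have h1 := card_le_card (Bd_le b K H (J - (j + 1)) (j + 1))
    rw [show j + 1 + (J - (j + 1)) = J by omega] at h1
    exact_mod_cast h1
  · intro h hh hmem
    rw [mem_Bd] at hmem
    exact hmem.2 ⟨h, hh, 0, Nat.zero_le _, PS_zero' b _, by rw [add_zero]⟩
  · intro e he
    have hle : b ^ e ≤ b ^ K := Nat.pow_le_pow_right (by omega) he.le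
    have h1 : ((Bd b K H (j + 1)).filter fun a => (a + (b ^ K - b ^ e)) % b ^ K ∉ Bd b K H (j + 1)).card ≤
        (Bd b K H j \ Bd b K H (j + 1)).card := by
      apply card_le_card_of_injOn (fun a => (a + (b ^ K - b ^ e)) % b ^ K)
      · intro a ha
        rw [mem_coe, mem_filter] at ha
        rw [mem_coe, mem_sdiff]
        exact ⟨Bd_step b K hb H j a e he ha.1, ha.2⟩
      · intro a ha a' ha' haa
        rw [mem_coe, mem_filter] at ha ha'
        have h2 : a < b ^ K := mem_range.1 (Bd_sub b K H (j + 1) ha.1)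
        have h3 : a' < b ^ K := mem_range.1 (Bd_sub b K H (j + 1) ha'.1)
        have h4 : a + (b ^ K - b ^ e) ≡ a' + (b ^ K - b ^ e) [MOD b ^ K] := haa
        have h5 := Nat.ModEq.add_right_cancel' _ h4
        exact Nat.ModEq.eq_of_lt_of_lt h5 h2 h3
    rw [card_sdiff_of_subset (Bd_anti b K H j)] at h1
    have h2 : (((Bd b K H j).card - (Bd b K H (j + 1)).card : ℕ) : ℝ) = (Bd b K H j).card - (Bd b K H (j + 1)).card := by
      rw [Nat.cast_sub (card_le_card (Bd_anti b K H j))]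
    have h3 : (((Bd b K H (j + 1)).filter fun a => (a + (b ^ K - b ^ e)) % b ^ K ∉ Bd b K H (j + 1)).card : ℝ) ≤
        (Bd b K H j).card - (Bd b K H (j + 1)).card := by
      rw [← h2]
      exact_mod_cast h1
    exact h3.trans hjj

end Pool.Agent.H86.DA
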