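import Pool.Agent.H86.DA.Key
import Pool.Agent.H86.DA.Res

set_option autoImplicit false

/-! Assembly: two sets of primes of positive density and boundedly many powers of `b` represent almost all integers. -/

namespace Pool.Agent.H86.DA
open Finset
open Pool.Agent.H86.DL (vd WW ph WW_nonneg WW_mass smooth pnt_pi)

/-- the elements up to `Y` of a set, as a finite set -/
lemma trunc (P : Set ℕ) (hP : ∀ p ∈ P, p.Prime) (Y : ℕ) : ∃ F : Finset ℕ, (∀ p ∈ F, p ∈ P ∧ p.Prime ∧ p ≤ Y) ∧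
    (F.card : ℝ) = (({p : ℕ | p ∈ P ∧ p ≤ Y} : Set ℕ).ncard : ℝ) := by
  classical
  refine ⟨(range (Y + 1)).filter (· ∈ P), ?_, ?_⟩
  · intro p hp
    rw [mem_filter, mem_range] at hp
    exact ⟨hp.2, hP p hp.2, by omega⟩
  · have h1 : ({p : ℕ | p ∈ P ∧ p ≤ Y} : Set ℕ) = (((range (Y + 1)).filter (· ∈ P) : Finset ℕ) : Set ℕ) := by
      ext p
      simp only [coe_filter, mem_range, Set.mem_ofPred_eq, Nat.lt_succ_iff]
      exact and_comm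
    rw [h1, Set.ncard_coe_finset]

/-- one set of primes: the mass of the smoothed function -/
lemma mass_one (b K T n₀ : ℕ) (α : ℝ) (hα : 0 < α)
    {s : ℕ} (Ω : Finset (ℕ × (Fin 3 × Fin s → ℕ × ℕ))) (hT : ∀ o ∈ Ω, vd b o ≤ T)
    (hn₀ : ∀ Y : ℕ, n₀ ≤ Y → ∀ P : Finset ℕ, (∀ p ∈ P, p.Prime ∧ p ≤ Y) →
      α * (Nat.primeCounting Y : ℝ) ≤ P.card → α / 4 * Y ≤ ∑ p ∈ P, Real.log p)
    (hbK : 2 * n₀ + 8 ≤ b ^ K) (hT4 : 4 * T ≤ b ^ K) (F : Finset ℕ)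
    (hF : ∀ p ∈ F, p.Prime ∧ p ≤ b ^ K - 1 - T) (hd : α * (Nat.primeCounting (b ^ K - 1 - T) : ℝ) ≤ F.card) :
    Ω.card * (α / 8 * (b : ℝ) ^ K) ≤ ∑ y ∈ range (b ^ K), WW b (lp F) (b ^ K) Ω y := by
  classical
  have h1 := hn₀ (b ^ K - 1 - T) (by omega) F hF hd
  have h2 := WW_mass b (lp F) (b ^ K) T (b ^ K - 1) Ω (fun n => lp_nonneg F n) hT (by omega)
  have h3 : ∑ x ∈ Icc 1 (b ^ K - 1), WW b (lp F) (b ^ K) Ω x ≤ ∑ y ∈ range (b ^ K), WW b (lp F) (b ^ K) Ω y := by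
    apply sum_le_sum_of_subset_of_nonneg
    · intro x hx
      rw [mem_Icc] at hx
      rw [mem_range]
      omega
    · intro y _ _
      exact WW_nonneg b _ _ Ω y (fun n _ => lp_nonneg F n)
  refine le_trans ?_ (h2.trans h3)
  apply mul_le_mul_of_nonneg_left _ (Nat.cast_nonneg _)
  have h4 : ∑ n ∈ Icc 1 (b ^ K - 1 - T), lp F n = ∑ p ∈ F, Real.log p := by
    have h5 : F ⊆ Icc 1 (b ^ K - 1 - T) := by
      intro p hp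
      rw [mem_Icc]
      exact ⟨(hF p hp).1.one_le, (hF p hp).2⟩
    rw [← sum_subset h5]
    · apply sum_congr rfl
      intro p hp
      unfold lp
      rw [if_pos hp, ArithmeticFunction.vonMangoldt_apply_prime (hF p hp).1]
    · intro n _ hn
      unfold lp
      rw [if_neg hn]
  rw [h4]
  refine le_trans ?_ h1
  have h6 : ((b ^ K - 1 - T : ℕ) : ℝ) = (b : ℝ) ^ K - 1 - T := by
    rw [Nat.cast_sub (by omega), Nat.cast_sub (by omega)]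
    push_cast
    ring
  have h7 : (8 : ℝ) ≤ (b : ℝ) ^ K := by
    have : ((8 : ℕ) : ℝ) ≤ ((b ^ K : ℕ) : ℝ) := by exact_mod_cast (by omega : 8 ≤ b ^ K)
    push_cast at this
    exact this
  have h8 : 4 * (T : ℝ) ≤ (b : ℝ) ^ K := by exact_mod_cast hT4
  rw [h6]
  have h9 : (b : ℝ) ^ K / 2 ≤ (b : ℝ) ^ K - 1 - T := by linarith
  nlinarith

theorem scale (hC : S_CYC) (hMas : S_MAS) (b : ℕ) (hb : 2 ≤ b) (α ε : ℝ) (hα : 0 < α) (hε : 0 < ε) :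
    ∃ k J K₁ : ℕ, 1 ≤ J ∧ ∀ K : ℕ, K₁ ≤ K → ∀ P Q : Set ℕ, (∀ p ∈ P, p.Prime) → (∀ q ∈ Q, q.Prime) →
      (∀ Y : ℕ, (b : ℝ) ^ K / 2 ≤ Y → Y < b ^ K →
        α * (Nat.primeCounting Y : ℝ) ≤ (({p : ℕ | p ∈ P ∧ p ≤ Y} : Set ℕ).ncard : ℝ) ∧
        α * (Nat.primeCounting Y : ℝ) ≤ (({q : ℕ | q ∈ Q ∧ q ≤ Y} : Set ℕ).ncard : ℝ)) →
      ∃ H : Set ℕ, (∀ h ∈ H, h ≤ 3 * b ^ K) ∧
        (∀ h ∈ H, ∃ p ∈ P, ∃ q ∈ Q, p ≠ q ∧ ∃ l, PS b k l ∧ h = p + q + l) ∧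
        (({n : ℕ | n < b ^ K ∧ ¬ ∃ h ∈ H, ∃ l ≤ J * b ^ K, PS b J l ∧ (h + l) % b ^ K = n} : Set ℕ).ncard : ℝ) ≤
          ε * (b : ℝ) ^ K := by
  classical
  have hbr : (2 : ℝ) ≤ b := by exact_mod_cast hb
  obtain ⟨κ, hκdef⟩ : ∃ κ : ℝ, κ = min (1 / 4) (α ^ 2 * ε / (1536 * b ^ 2)) := ⟨_, rfl⟩
  have hκ0 : 0 < κ := by rw [hκdef]; exact lt_min (by norm_num) (by positivity)
  have hκ4 : κ ≤ 1 / 4 := by rw [hκdef]; exact min_le_left _ _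
  have hκα : κ * (1536 * b ^ 2) ≤ α ^ 2 * ε := by
    have h1 : κ ≤ α ^ 2 * ε / (1536 * b ^ 2) := by rw [hκdef]; exact min_le_right _ _
    rwa [le_div_iff₀ (by positivity)] at h1
  obtain ⟨s, K₀, hs⟩ := smooth b hb κ hκ0
  obtain ⟨J, hJ⟩ := exists_nat_ge (768 * (b : ℝ) ^ 3 / (α ^ 2 * ε))
  have hJ1 : 1 ≤ J := by
    by_contra h
    have : J = 0 := by omega
    rw [this, Nat.cast_zero] at hJ
    have : 0 < 768 * (b : ℝ) ^ 3 / (α ^ 2 * ε) := by positivity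
    linarith
  have hJ0 : (0 : ℝ) < J := by exact_mod_cast hJ1
  have hJα : 768 * (b : ℝ) ^ 3 * (1 / J) ≤ α ^ 2 * ε := by
    rw [div_le_iff₀ (by positivity)] at hJ
    rw [mul_one_div, div_le_iff₀ hJ0]
    linarith
  obtain ⟨n₀, hn₀⟩ := hMas (fun δ hδ => by
    obtain ⟨n, hn⟩ := pnt_pi δ hδ
    exact ⟨n, fun m hm => (hn m hm).2⟩) α hα
  obtain ⟨K₂, hK₂⟩ := pow_unbounded_of_one_lt (1 / κ + (2 * n₀ + 8)) (by linarith : (1 : ℝ) < b)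
  refine ⟨(1 + 3 * s) + (1 + 3 * s), J, K₀ + K₂, hJ1, fun K hK P Q hP hQ hd => ?_⟩
  have hK2 : 1 / κ + (2 * n₀ + 8) < (b : ℝ) ^ K :=
    hK₂.trans_le (pow_le_pow_right₀ (by linarith) (by omega))
  have hκ1 : 0 < 1 / κ := by positivity
  have hbK : 2 * n₀ + 8 ≤ b ^ K := by
    have : (2 * (n₀ : ℝ) + 8) ≤ (b : ℝ) ^ K := by linarith
    exact_mod_cast this
  have hκM : 1 ≤ κ * (b : ℝ) ^ K := by
    have h1 : 1 / κ ≤ (b : ℝ) ^ K := by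
      have : (0 : ℝ) ≤ n₀ := Nat.cast_nonneg _
      linarith
    rw [div_le_iff₀ hκ0] at h1
    linarith
  obtain ⟨Ω, hΩne, hΩ, hS⟩ := hs K (by omega)
  obtain ⟨T, hTdef⟩ : ∃ T, T = ⌊κ * ((b ^ K : ℕ) : ℝ)⌋₊ := ⟨_, rfl⟩
  have hT : ∀ o ∈ Ω, vd b o ≤ T := by
    intro o ho
    rw [hTdef]
    apply Nat.le_floor
    have := (hΩ o ho).2.2
    push_cast at this ⊢
    exact this
  have hTle : (T : ℝ) ≤ κ * (b : ℝ) ^ K := by
    have h1 : (T : ℝ) ≤ κ * ((b ^ K : ℕ) : ℝ) := by rw [hTdef]; exact Nat.floor_le (by positivity)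
    push_cast at h1
    exact h1
  have hM0 : (0 : ℝ) < (b : ℝ) ^ K := by positivity
  have hT4 : 4 * T ≤ b ^ K := by
    have h1 : 4 * (T : ℝ) ≤ (b : ℝ) ^ K := by nlinarith
    exact_mod_cast h1
  -- the truncated sets
  obtain ⟨Y, hY⟩ : ∃ Y, Y = b ^ K - 1 - T := ⟨_, rfl⟩
  have hYr : (Y : ℝ) = (b : ℝ) ^ K - 1 - T := by
    rw [hY, Nat.cast_sub (by omega), Nat.cast_sub (by omega)]
    push_cast
    ring
  have hM8 : (8 : ℝ) ≤ (b : ℝ) ^ K := by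
    have : (0 : ℝ) ≤ n₀ := Nat.cast_nonneg _
    linarith
  have hY2 : (b : ℝ) ^ K / 2 ≤ Y := by
    have h1 : 4 * (T : ℝ) ≤ (b : ℝ) ^ K := by exact_mod_cast hT4
    rw [hYr]
    linarith
  have hYM : Y < b ^ K := by omega
  obtain ⟨hdP, hdQ⟩ := hd Y hY2 hYM
  obtain ⟨F, hF, hFc⟩ := trunc P hP Y
  obtain ⟨G, hG, hGc⟩ := trunc Q hQ Y
  rw [← hFc] at hdP
  rw [← hGc] at hdQ
  rw [hY] at hdP hdQ
  have hmP := mass_one b K T n₀ α hα Ω hT hn₀ hbK hT4 F (fun p hp => by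
    rw [← hY]; exact (hF p hp).2) hdP
  have hmQ := mass_one b K T n₀ α hα Ω hT hn₀ hbK hT4 G (fun p hp => by
    rw [← hY]; exact (hG p hp).2) hdQ
  -- the set of sums
  refine ⟨{h | ∃ p ∈ F, ∃ q ∈ G, p ≠ q ∧ ∃ o ∈ Ω, ∃ o' ∈ Ω, h = p + q + vd b o + vd b o'}, ?_, ?_, ?_⟩
  · rintro h ⟨p, hp, q, hq, _, o, ho, o', ho', rfl⟩
    have h1 := (hF p hp).2.2
    have h2 := (hG q hq).2.2
    have h3 := hT o ho
    have h4 := hT o' ho'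
    omega
  · rintro h ⟨p, hp, q, hq, hpq, o, ho, o', ho', rfl⟩
    refine ⟨p, (hF p hp).1, q, (hG q hq).1, hpq, vd b o + vd b o', ?_, by ring⟩
    exact Pool.Agent.H86.DL.PS_add b _ _ _ _ (hΩ o ho).1 (hΩ o' ho').1
  · by_contra hcon
    have hcon' := (not_le.1 hcon).le
    obtain ⟨A, hA, hAc, hAd, hAr⟩ := chain b K J hb hJ1 _ ε hcon'
    have hkey := key hC b K T hb Ω κ hκ0.le (by linarith) hT hS F G A hA (1 / J) hAr (by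
      intro p hp q hq hpq o ho o' ho'
      exact hAd _ ⟨p, hp, q, hq, hpq, o, ho, o', ho', rfl⟩) (by positivity) (α / 8 * (b : ℝ) ^ K) (α / 8 * (b : ℝ) ^ K)
      (by positivity) (by positivity) hmP hmQ
    have hO : (0 : ℝ) < (Ω.card : ℝ) ^ 2 := by
      have : (0 : ℝ) < Ω.card := by exact_mod_cast hΩne.card_pos
      positivity
    have h1 := le_of_mul_le_mul_left hkey hO
    obtain ⟨M, hMdef⟩ : ∃ M : ℝ, M = (b : ℝ) ^ K := ⟨_, rfl⟩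
    rw [← hMdef] at h1 hAc hκM hTle hM0
    have h2 : α / 8 * M * (α / 8 * M) * A.card / M = α ^ 2 / 64 * M * A.card := by
      field_simp
      ring
    rw [h2] at h1
    have h3 : α ^ 2 / 64 * M * (ε * M) ≤ α ^ 2 / 64 * M * A.card := mul_le_mul_of_nonneg_left hAc (by positivity)
    have h4 : 3 * (b : ℝ) ^ 3 * (1 / J) * M * M ≤ α ^ 2 * ε / 256 * (M * M) := by
      have : 3 * (b : ℝ) ^ 3 * (1 / J) ≤ α ^ 2 * ε / 256 := by linarith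
      calc 3 * (b : ℝ) ^ 3 * (1 / J) * M * M = (3 * (b : ℝ) ^ 3 * (1 / J)) * (M * M) := by ring
        _ ≤ _ := mul_le_mul_of_nonneg_right this (by positivity)
    have h5 : (2 * (T : ℝ) + 1) * (3 * b ^ 2 * M) ≤ α ^ 2 * ε / 170 * (M * M) := by
      have h6 : 2 * (T : ℝ) + 1 ≤ 3 * (κ * M) := by linarith
      calc (2 * (T : ℝ) + 1) * (3 * b ^ 2 * M) ≤ (3 * (κ * M)) * (3 * b ^ 2 * M) :=
            mul_le_mul_of_nonneg_right h6 (by positivity)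
        _ = (9 / 1536 * (κ * (1536 * b ^ 2))) * (M * M) := by ring
        _ ≤ (9 / 1536 * (α ^ 2 * ε)) * (M * M) := by
            apply mul_le_mul_of_nonneg_right _ (by positivity)
            linarith
        _ ≤ _ := by
            apply mul_le_mul_of_nonneg_right _ (by positivity)
            have : 0 < α ^ 2 * ε := by positivity
            linarith
    have h7 : 0 < α ^ 2 * ε * (M * M) := by positivity
    nlinarith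

/-- **Almost all integers.** -/
theorem almost_all (hC : S_CYC) (hMas : S_MAS) (hFin : S_FIN) (b : ℕ) (hb : 2 ≤ b) (α ε : ℝ) (hα : 0 < α) (hε : 0 < ε) :
    ∃ k X₀ : ℕ, ∃ c : ℝ, 0 < c ∧ ∀ X : ℕ, X₀ ≤ X → ∀ P Q : Set ℕ, (∀ p ∈ P, p.Prime) → (∀ q ∈ Q, q.Prime) →
      (∀ Y : ℕ, c * X ≤ Y → Y ≤ X →
        α * (Nat.primeCounting Y : ℝ) ≤ (({p : ℕ | p ∈ P ∧ p ≤ Y} : Set ℕ).ncard : ℝ) ∧
        α * (Nat.primeCounting Y : ℝ) ≤ (({q : ℕ | q ∈ Q ∧ q ≤ Y} : Set ℕ).ncard : ℝ)) →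
      (({N : ℕ | N ≤ X ∧ ¬ ∃ p ∈ P, ∃ q ∈ Q, p ≠ q ∧ ∃ k' ≤ k, ∃ e : Fin k' → ℕ, N = p + q + ∑ i, b ^ e i} : Set ℕ).ncard : ℝ) ≤
        ε * X := by
  classical
  have hbr : (2 : ℝ) ≤ b := by exact_mod_cast hb
  obtain ⟨ε₁, hε₁⟩ : ∃ ε₁ : ℝ, ε₁ = min (ε / 2) 1 := ⟨_, rfl⟩
  have hε10 : 0 < ε₁ := by rw [hε₁]; exact lt_min (by positivity) one_pos
  have hε11 : ε₁ ≤ 1 := by rw [hε₁]; exact min_le_right _ _
  have hε12 : ε₁ ≤ ε / 2 := by rw [hε₁]; exact min_le_left _ _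
  obtain ⟨k₀, J, K₁, hJ1, hsc⟩ := scale hC hMas b hb α ε₁ hα hε10
  have hJ0 : (0 : ℝ) < J := by exact_mod_cast hJ1
  obtain ⟨δ, hδ⟩ : ∃ δ : ℝ, δ = min (ε / (2 * (J + 5))) 1 := ⟨_, rfl⟩
  have hδ0 : 0 < δ := by rw [hδ]; exact lt_min (by positivity) one_pos
  have hδ1 : δ ≤ 1 := by rw [hδ]; exact min_le_right _ _
  have hδ2 : δ * (2 * (J + 5)) ≤ ε := by
    have h1 : δ ≤ ε / (2 * (J + 5)) := by rw [hδ]; exact min_le_left _ _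
    rwa [le_div_iff₀ (by positivity)] at h1
  refine ⟨k₀ + (J + ⌊2 * b / δ⌋₊), ⌈(b ^ K₁ + 2) / δ⌉₊ + 1, δ / (4 * b), by positivity, fun X hX P Q hP hQ hd => ?_⟩
  have hX1 : ((b : ℝ) ^ K₁ + 2) / δ ≤ X := by
    refine (Nat.le_ceil _).trans ?_
    exact_mod_cast (by omega : ⌈((b : ℝ) ^ K₁ + 2) / δ⌉₊ ≤ X)
  rw [div_le_iff₀ hδ0] at hX1
  have hbK1 : (0 : ℝ) < (b : ℝ) ^ K₁ := by positivity
  have hX0 : (0 : ℝ) ≤ X := Nat.cast_nonneg _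
  obtain ⟨Z, hZ⟩ : ∃ Z, Z = ⌊δ * X⌋₊ := ⟨_, rfl⟩
  have hZle : (Z : ℝ) ≤ δ * X := by rw [hZ]; exact Nat.floor_le (by positivity)
  have hZlt : δ * X < Z + 1 := by rw [hZ]; exact Nat.lt_floor_add_one _
  have hZK : b ^ K₁ ≤ Z := by
    rw [hZ]
    apply Nat.le_floor
    push_cast
    linarith
  have hZ0 : Z ≠ 0 := by
    have : 0 < b ^ K₁ := Nat.pow_pos (by omega)
    omega
  obtain ⟨K, hK⟩ : ∃ K, K = Nat.log b Z := ⟨_, rfl⟩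
  have hK1 : b ^ K ≤ Z := by rw [hK]; exact Nat.pow_log_le_self b hZ0
  have hK2 : Z < b ^ (K + 1) := by rw [hK]; exact Nat.lt_pow_succ_log_self (by omega) Z
  have hKK : K₁ ≤ K := by rw [hK]; exact Nat.le_log_of_pow_le (by omega) hZK
  have hK1r : (b : ℝ) ^ K ≤ δ * X := by
    refine le_trans ?_ hZle
    exact_mod_cast hK1
  have hK2r : δ * X ≤ 2 * b * (b : ℝ) ^ K := by
    have h1 : (Z : ℝ) + 1 ≤ (b : ℝ) ^ (K + 1) := by exact_mod_cast hK2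
    rw [pow_succ'] at h1
    have h2 : 0 < (b : ℝ) * (b : ℝ) ^ K := by positivity
    linarith
  have hKX : b ^ K ≤ X := by
    have : (b : ℝ) ^ K ≤ X := by nlinarith
    exact_mod_cast this
  obtain ⟨H, hH3, hHr, hHc⟩ := hsc K hKK P Q hP hQ (by
    intro Y hY1 hY2
    refine hd Y ?_ (by omega)
    refine le_trans ?_ hY1
    rw [div_mul_eq_mul_div, div_le_iff₀ (by positivity)]
    linarith)
  have hfin := hFin b K J X ε₁ H hb hε10.le hε11 hH3 hHc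
  have hdiv : X / b ^ K ≤ ⌊2 * b / δ⌋₊ := by
    apply Nat.le_floor
    have h1 : ((X / b ^ K : ℕ) : ℝ) ≤ (X : ℝ) / ((b ^ K : ℕ) : ℝ) := Nat.cast_div_le
    refine h1.trans ?_
    push_cast
    rw [div_le_div_iff₀ (by positivity) hδ0]
    linarith
  have hsub : ({N : ℕ | N ≤ X ∧ ¬ ∃ p ∈ P, ∃ q ∈ Q, p ≠ q ∧ ∃ k' ≤ k₀ + (J + ⌊2 * b / δ⌋₊), ∃ e : Fin k' → ℕ,
      N = p + q + ∑ i, b ^ e i} : Set ℕ) ⊆ {N : ℕ | N ≤ X ∧ ¬ ∃ h ∈ H, ∃ l, PS b (J + X / b ^ K) l ∧ N = h + l} := by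
    rintro N ⟨hN, hno⟩
    refine ⟨hN, ?_⟩
    rintro ⟨h, hh, l, hl, hNe⟩
    obtain ⟨p, hp, q, hq, hpq, l₀, hl₀, hhe⟩ := hHr h hh
    have h1 := Pool.Agent.H86.DL.PS_mono b _ (k₀ + (J + ⌊2 * b / δ⌋₊)) _ (Pool.Agent.H86.DL.PS_add b _ _ _ _ hl₀ hl) (by omega)
    obtain ⟨k', hk', e, he⟩ := Pool.Agent.H86.DL.PS_fin b _ _ h1
    exact hno ⟨p, hp, q, hq, hpq, k', hk', e, by rw [← he]; omega⟩
  have hfinite : ({N : ℕ | N ≤ X ∧ ¬ ∃ h ∈ H, ∃ l, PS b (J + X / b ^ K) l ∧ N = h + l} : Set ℕ).Finite :=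
    (Set.finite_Iic X).subset fun N hN => hN.1
  have h2 : (({N : ℕ | N ≤ X ∧ ¬ ∃ p ∈ P, ∃ q ∈ Q, p ≠ q ∧ ∃ k' ≤ k₀ + (J + ⌊2 * b / δ⌋₊), ∃ e : Fin k' → ℕ,
      N = p + q + ∑ i, b ^ e i} : Set ℕ).ncard : ℝ) ≤
      (({N : ℕ | N ≤ X ∧ ¬ ∃ h ∈ H, ∃ l, PS b (J + X / b ^ K) l ∧ N = h + l} : Set ℕ).ncard : ℝ) := by
    exact_mod_cast Set.ncard_le_ncard hsub hfinite
  refine h2.trans (hfin.trans ?_)
  have h3 : ((J : ℝ) + 5) * (b : ℝ) ^ K ≤ ε / 2 * X := by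
    calc ((J : ℝ) + 5) * (b : ℝ) ^ K ≤ (J + 5) * (δ * X) := mul_le_mul_of_nonneg_left hK1r (by positivity)
      _ = (δ * (2 * (J + 5))) / 2 * X := by ring
      _ ≤ ε / 2 * X := by
          apply mul_le_mul_of_nonneg_right _ hX0
          linarith
  have h4 : ε₁ * X ≤ ε / 2 * X := mul_le_mul_of_nonneg_right hε12 hX0
  linarith

end Pool.Agent.H86.DA
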