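import Pool.Agent.H86.DA.Res

set_option autoImplicit false

/-! A decreasing chain of sets of residues contains a nearly invariant member, geometric version. -/

namespace Pool.Agent.H86.DA
open Finset

lemma pigeon2 (a : ℕ → ℝ) (J : ℕ) (γ : ℝ) (hγ : 0 < γ) (M ε : ℝ) (hM : 0 < M) (h0 : a 0 ≤ M) (h1 : ε * M ≤ a J)
    (hJ : 1 < ε * (1 + γ) ^ J) : ∃ j < J, a j - a (j + 1) ≤ γ * a (j + 1) := by
  by_contra hcon
  push Not at hcon
  have h2 : ∀ j ≤ J, (1 + γ) ^ j * a j ≤ a 0 := by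
    intro j
    induction j with
    | zero => intro _; simp
    | succ j ih =>
      intro hj
      have e1 := ih (by omega)
      have e2 := hcon j (by omega)
      have e3 : (1 + γ) * a (j + 1) ≤ a j := by linarith
      have e4 : 0 < (1 + γ) ^ j := by positivity
      calc (1 + γ) ^ (j + 1) * a (j + 1) = (1 + γ) ^ j * ((1 + γ) * a (j + 1)) := by ring
        _ ≤ (1 + γ) ^ j * a j := mul_le_mul_of_nonneg_left e3 e4.le
        _ ≤ a 0 := e1
  have h3 := h2 J le_rfl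
  have h4 : 0 < (1 + γ) ^ J := by positivity
  have h5 : (1 + γ) ^ J * (ε * M) ≤ (1 + γ) ^ J * a J := mul_le_mul_of_nonneg_left h1 h4.le
  have h6 : M < ε * (1 + γ) ^ J * M := by nlinarith
  nlinarith

theorem chain2 (b K J : ℕ) (hb : 2 ≤ b) (γ : ℝ) (hγ : 0 < γ) (H : Set ℕ) (ε : ℝ) (hε : 1 < ε * (1 + γ) ^ J)
    (hbad : ε * (b : ℝ) ^ K ≤ ({n : ℕ | n < b ^ K ∧ ¬ ∃ h ∈ H, ∃ l ≤ J * b ^ K, PS b J l ∧ (h + l) % b ^ K = n}.ncard : ℝ)) :
    ∃ A ⊆ range (b ^ K), ε * (b : ℝ) ^ K ≤ A.card ∧ (∀ h ∈ H, h % b ^ K ∉ A) ∧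
      ∀ e < K, ((A.filter fun a => (a + (b ^ K - b ^ e)) % b ^ K ∉ A).card : ℝ) ≤ γ * A.card := by
  classical
  have hM : 0 < b ^ K := Nat.pow_pos (by omega)
  have hJB : {n : ℕ | n < b ^ K ∧ ¬ ∃ h ∈ H, ∃ l ≤ J * b ^ K, PS b J l ∧ (h + l) % b ^ K = n} = (Bd b K H J : Set ℕ) := by
    ext n
    rw [mem_coe, mem_Bd]
    exact Iff.rfl
  rw [hJB, Set.ncard_coe_finset] at hbad
  obtain ⟨j, hj, hjj⟩ := pigeon2 (fun j => ((Bd b K H j).card : ℝ)) J γ hγ ((b : ℝ) ^ K) ε (by positivity) (by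
    have h1 : (Bd b K H 0).card ≤ (range (b ^ K)).card := card_le_card (Bd_sub b K H 0)
    rw [card_range] at h1
    exact_mod_cast h1) hbad hε
  refine ⟨Bd b K H (j + 1), Bd_sub b K H (j + 1), ?_, ?_, ?_⟩
  · refine hbad.trans ?_
    have h1 := card_le_card (Bd_le b K H (J - (j + 1)) (j + 1))
    rw [show j + 1 + (J - (j + 1)) = J by omega] at h1
    exact_mod_cast h1
  · intro h hh hmem
    rw [mem_Bd] at hmem
    exact hmem.2 ⟨h, hh, 0, Nat.zero_le _, PS_zero' b _, by rw [add_zero]⟩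
  · intro e he
    have hle : b ^ e ≤ b ^ K := Nat.pow_le_pow_right (by omega) he.le
    have h1 : ((Bd b K H (j + 1)).filter fun a => (a + (b ^ K - b ^ e)) % b ^ K ∉ Bd b K H (j + 1)).card ≤
        (Bd b K H j \ Bd b K H (j + 1)).card := by
      apply card_le_card_of_injOn (fun a => (a + (b ^ K - b ^ e)) % b ^ K)
      · intro a ha
        rw [mem_coe, mem_filter] at ha
        rw [mem_coe, mem_sdiff]
        exact ⟨Bd_step b K hb H j a e he ha.1, ha.2⟩
      · intro a ha a' ha' haa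
        rw [mem_coe, mem_filter] at ha ha'
        have h2 : a < b ^ K := mem_range.1 (Bd_sub b K H (j + 1) ha.1)
        have h3 : a' < b ^ K := mem_range.1 (Bd_sub b K H (j + 1) ha'.1)
        have h4 : a + (b ^ K - b ^ e) ≡ a' + (b ^ K - b ^ e) [MOD b ^ K] := haa
        have h5 := Nat.ModEq.add_right_cancel' _ h4
        exact Nat.ModEq.eq_of_lt_of_lt h5 h2 h3
    rw [card_sdiff_of_subset (Bd_anti b K H j)] at h1
    have h2 : (((Bd b K H j).card - (Bd b K H (j + 1)).card : ℕ) : ℝ) = (Bd b K H j).card - (Bd b K H (j + 1)).card := by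
      rw [Nat.cast_sub (card_le_card (Bd_anti b K H j))]
    have h3 : (((Bd b K H (j + 1)).filter fun a => (a + (b ^ K - b ^ e)) % b ^ K ∉ Bd b K H (j + 1)).card : ℝ) ≤
        (Bd b K H j).card - (Bd b K H (j + 1)).card := by
      rw [← h2]
      exact_mod_cast h1
    exact h3.trans hjj

end Pool.Agent.H86.DA
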