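import Pool.Agent.H86.DA.Stm

set_option autoImplicit false

/-! From residues to integers, with few powers (after helper61). -/

namespace Pool.Agent.H86.DA
open Finset

lemma PS_shift (b K t j : ℕ) (h : PS b t j) : PS b t (j * b ^ K) := by
  obtain ⟨l, h1, rfl⟩ := h
  refine ⟨l.map (fun e => e + K), by rw [List.length_map]; exact h1, ?_⟩
  rw [List.map_map]
  clear h1
  induction l with
  | nil => simp
  | cons a l ih =>
    simp only [List.map_cons, List.sum_cons, Function.comp_apply] at ih ⊢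
    rw [add_mul, ih, pow_add]

lemma PS_digits (b : ℕ) (hb : 2 ≤ b) : ∀ m j : ℕ, j < b ^ m → PS b ((b - 1) * m) j := by
  intro m
  induction m with
  | zero =>
    intro j hj
    rw [pow_zero] at hj
    exact ⟨[], by simp, by simp; omega⟩
  | succ m ih =>
    intro j hj
    have h1 : j / b < b ^ m := by
      rw [Nat.div_lt_iff_lt_mul (by omega), ← pow_succ]
      exact hj
    have h2 : j % b < b := Nat.mod_lt _ (by omega)
    obtain ⟨v, hv1, hv2⟩ := PS_shift b 1 _ _ (ih (j / b) h1)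
    refine ⟨List.replicate (j % b) 0 ++ v, ?_, ?_⟩
    · rw [List.length_append, List.length_replicate, Nat.mul_succ]
      omega
    · rw [List.map_append, List.sum_append, ← hv2, List.map_replicate, List.sum_replicate, smul_eq_mul, pow_zero, pow_one]
      have := Nat.mod_add_div j b
      rw [mul_comm] at this
      rw [mul_one]
      have h3 := Nat.div_add_mod j b
      rw [mul_comm (j / b) b]
      omega

theorem fin2 (b K J X m : ℕ) (ε₁ : ℝ) (H : Set ℕ) (hb : 2 ≤ b) (hε : 0 ≤ ε₁) (hH : ∀ h ∈ H, h ≤ 3 * b ^ K)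
    (hm : X / b ^ K < b ^ m)
    (hE : (({n : ℕ | n < b ^ K ∧ ¬ ∃ h ∈ H, ∃ l ≤ J * b ^ K, PS b J l ∧ (h + l) % b ^ K = n} : Set ℕ).ncard : ℝ) ≤
      ε₁ * (b : ℝ) ^ K) :
    (({N : ℕ | N ≤ X ∧ ¬ ∃ h ∈ H, ∃ l, PS b (J + (b - 1) * m) l ∧ N = h + l} : Set ℕ).ncard : ℝ) ≤
      (J + 5) * (b : ℝ) ^ K + ε₁ * X := by
  classical
  obtain ⟨M, hM⟩ : ∃ M, M = b ^ K := ⟨_, rfl⟩
  have hM0 : 0 < M := by
    rw [hM]
    positivity
  have hMr : ((b : ℝ) ^ K) = M := by
    rw [hM]
    push_cast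
    rfl
  rw [hMr] at hE
  rw [hMr]
  rw [← hM] at hE hH hm
  obtain ⟨E, hEd⟩ : ∃ E : Set ℕ, E = {n : ℕ | n < M ∧ ¬ ∃ h ∈ H, ∃ l ≤ J * M, PS b J l ∧ (h + l) % M = n} := ⟨_, rfl⟩
  rw [← hEd] at hE
  have hEf : E.Finite := (Set.finite_lt_nat M).subset fun n hn => by
    rw [hEd] at hn
    exact hn.1
  obtain ⟨F, hF⟩ : ∃ F : Finset ℕ, F = hEf.toFinset := ⟨_, rfl⟩
  have hFc : (F.card : ℝ) ≤ ε₁ * M := by
    have h1 : F.card = E.ncard := by
      rw [hF, Set.ncard_eq_toFinset_card E hEf]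
    rw [h1]
    exact hE
  have hsub : {N : ℕ | N ≤ X ∧ ¬ ∃ h ∈ H, ∃ l, PS b (J + (b - 1) * m) l ∧ N = h + l} ⊆
      ((range ((J + 3) * M) ∪ (F ×ˢ range (X / M + 1)).image fun p => p.1 + M * p.2 : Finset ℕ) : Set ℕ) := by
    rintro N ⟨hNX, hN⟩
    rw [Finset.mem_coe, mem_union]
    by_cases h1 : N < (J + 3) * M
    · exact Or.inl (mem_range.2 h1)
    · right
      rw [mem_image]
      refine ⟨(N % M, N / M), ?_, Nat.mod_add_div N M⟩
      rw [mem_product]
      refine ⟨?_, ?_⟩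
      · rw [hF, Set.Finite.mem_toFinset, hEd]
        refine ⟨Nat.mod_lt _ hM0, ?_⟩
        rintro ⟨h, hh, l, hl, ⟨w, hw1, hw2⟩, hmod⟩
        apply hN
        have h2 : h + l ≤ N := by
          have h3 := hH h hh
          have h4 : (J + 3) * M = 3 * M + J * M := by ring
          omega
        have h3 : M ∣ N - (h + l) := (Nat.modEq_iff_dvd' h2).1 hmod
        obtain ⟨j, hj⟩ := h3
        have h4 : j ≤ X / M := by
          rw [Nat.le_div_iff_mul_le hM0, mul_comm]
          omega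
        obtain ⟨v, hv1, hv2⟩ := PS_shift b K _ _ (PS_digits b hb m j (by omega))
        refine ⟨h, hh, l + M * j, ⟨w ++ v, ?_, ?_⟩, by omega⟩
        · rw [List.length_append]
          omega
        · rw [List.map_append, List.sum_append, ← hw2, ← hv2, ← hM]
          ring
      · rw [mem_range]
        have h2 := Nat.div_le_div_right (c := M) hNX
        exact Nat.lt_succ_of_le h2
  have h1 := Set.ncard_le_ncard hsub (Finset.finite_toSet _)
  rw [Set.ncard_coe_finset] at h1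
  have h2 : ((range ((J + 3) * M) ∪ (F ×ˢ range (X / M + 1)).image fun p => p.1 + M * p.2 : Finset ℕ)).card ≤
      (J + 3) * M + F.card * (X / M + 1) := by
    refine (card_union_le _ _).trans ?_
    rw [card_range]
    refine Nat.add_le_add_left (card_image_le.trans ?_) _
    rw [card_product, card_range]
  have h3 : (({N : ℕ | N ≤ X ∧ ¬ ∃ h ∈ H, ∃ l, PS b (J + (b - 1) * m) l ∧ N = h + l} : Set ℕ).ncard : ℝ) ≤
      (J + 3) * M + F.card * ((X / M : ℕ) + 1) := by exact_mod_cast h1.trans h2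
  have hMR : (0 : ℝ) < M := by exact_mod_cast hM0
  have h4 : ((X / M : ℕ) : ℝ) * M ≤ X := by exact_mod_cast Nat.div_mul_le_self X M
  have h5 : (F.card : ℝ) * (X / M : ℕ) ≤ ε₁ * M * (X / M : ℕ) :=
    mul_le_mul_of_nonneg_right hFc (by positivity)
  have hFM : (F.card : ℝ) ≤ M := by
    have e1 : F ⊆ range M := by
      intro n hn
      rw [hF, Set.Finite.mem_toFinset, hEd] at hn
      exact mem_range.2 hn.1
    have e2 := card_le_card e1
    rw [card_range] at e2
    exact_mod_cast e2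
  have h6 : (F.card : ℝ) * ((X / M : ℕ) + 1) ≤ ε₁ * X + M := by
    have h8 := mul_le_mul_of_nonneg_left h4 hε
    calc (F.card : ℝ) * ((X / M : ℕ) + 1) = F.card * (X / M : ℕ) + F.card := by ring
      _ ≤ ε₁ * M * (X / M : ℕ) + M := add_le_add h5 hFM
      _ = ε₁ * (((X / M : ℕ) : ℝ) * M) + M := by ring
      _ ≤ _ := by linarith
  refine h3.trans ?_
  linarith

end Pool.Agent.H86.DA
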