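import Pool.Agent.H86.DA.Key

set_option autoImplicit false
set_option linter.unusedSectionVars false

/-! The main inequality with a better bound for the diagonal. -/

namespace Pool.Agent.H86.DA
open Finset
open Pool.Agent.H86.DL (vd WW ph ph_le WW_mono WW_nonneg WW_pos_ex ph_nonneg)

section Omega
variable {ι : Type} [Fintype ι] [DecidableEq ι]

lemma WW_sum_le (b X M : ℕ) (f G : ℕ → ℝ) (Ω : Finset (ℕ × (ι → ℕ × ℕ))) (hf : ∀ n, 0 ≤ f n) (hG : ∀ n, 0 ≤ G n) :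
    ∑ x ∈ range M, WW b f X Ω x * G x ≤ ∑ i ∈ Ω ×ˢ Icc 1 X, f i.2 * G (i.2 + vd b i.1) := by
  classical
  unfold WW
  simp only [sum_mul]
  rw [sum_comm]
  apply sum_le_sum
  intro i _
  simp only [ite_mul, zero_mul]
  rw [sum_ite_eq]
  split_ifs
  · exact le_rfl
  · exact mul_nonneg (hf _) (hG _)

lemma lp_le_log (P : Finset ℕ) (M n : ℕ) (h1 : 1 ≤ n) (hn : n ≤ M) : lp P n ≤ Real.log M := by
  refine (lp_le P n).trans (ArithmeticFunction.vonMangoldt_le_log.trans ?_)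
  exact Real.log_le_log (by exact_mod_cast h1) (by exact_mod_cast hn)

lemma diag2 (b M : ℕ) (Ω : Finset (ℕ × (ι → ℕ × ℕ))) (P Q A : Finset ℕ)
    (hdis : ∀ p ∈ P, ∀ q ∈ Q, p ≠ q → ∀ o ∈ Ω, ∀ o' ∈ Ω, (p + q + vd b o + vd b o') % M ∉ A) :
    (∑ x ∈ range M, ∑ y ∈ range M, WW b (lp P) M Ω x * WW b (lp Q) M Ω y * (if (x + y) % M ∈ A then (1 : ℝ) else 0)) ≤
      (Ω.card : ℝ) ^ 2 * (M * Real.log M ^ 2) := by
  classical
  have hL : 0 ≤ Real.log M := Real.log_natCast_nonneg M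
  have hG0 : ∀ x, 0 ≤ ∑ y ∈ range M, WW b (lp Q) M Ω y * (if (x + y) % M ∈ A then (1 : ℝ) else 0) := fun x =>
    sum_nonneg fun y _ => mul_nonneg (WW_nonneg b _ _ Ω y fun n _ => lp_nonneg Q n) (by split_ifs <;> norm_num)
  have h1 : (∑ x ∈ range M, ∑ y ∈ range M, WW b (lp P) M Ω x * WW b (lp Q) M Ω y * (if (x + y) % M ∈ A then (1 : ℝ) else 0)) =
      ∑ x ∈ range M, WW b (lp P) M Ω x * ∑ y ∈ range M, WW b (lp Q) M Ω y * (if (x + y) % M ∈ A then (1 : ℝ) else 0) := by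
    apply sum_congr rfl
    intro x _
    rw [mul_sum]
    apply sum_congr rfl
    intro y _
    ring
  rw [h1]
  refine (WW_sum_le b M M (lp P) _ Ω (fun n => lp_nonneg P n) hG0).trans ?_
  have h2 : ∀ i ∈ Ω ×ˢ Icc 1 M, lp P i.2 * ∑ y ∈ range M, WW b (lp Q) M Ω y * (if (i.2 + vd b i.1 + y) % M ∈ A then (1 : ℝ) else 0) ≤
      Ω.card * Real.log M ^ 2 := by
    intro i hi
    rw [mem_product, mem_Icc] at hi
    have h3 := WW_sum_le b M M (lp Q) (fun y => if (i.2 + vd b i.1 + y) % M ∈ A then (1 : ℝ) else 0) Ω (fun n => lp_nonneg Q n)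
      (fun n => by split_ifs <;> norm_num)
    refine (mul_le_mul_of_nonneg_left h3 (lp_nonneg P i.2)).trans ?_
    rw [mul_sum]
    have h4 : ∀ j ∈ Ω ×ˢ Icc 1 M, lp P i.2 * (lp Q j.2 * (if (i.2 + vd b i.1 + (j.2 + vd b j.1)) % M ∈ A then (1 : ℝ) else 0)) ≤
        (if i.2 = j.2 then Real.log M ^ 2 else 0) := by
      intro j hj
      rw [mem_product, mem_Icc] at hj
      by_cases hij : i.2 = j.2
      · rw [if_pos hij]
        have e1 := lp_le_log P M i.2 hi.2.1 hi.2.2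
        have e2 := lp_le_log Q M j.2 hj.2.1 hj.2.2
        have e3 := lp_nonneg P i.2
        have e4 := lp_nonneg Q j.2
        have e5 : lp Q j.2 * (if (i.2 + vd b i.1 + (j.2 + vd b j.1)) % M ∈ A then (1 : ℝ) else 0) ≤ Real.log M := by
          split_ifs
          · rw [mul_one]; exact e2
          · rw [mul_zero]; exact hL
        have e6 : 0 ≤ lp Q j.2 * (if (i.2 + vd b i.1 + (j.2 + vd b j.1)) % M ∈ A then (1 : ℝ) else 0) :=
          mul_nonneg e4 (by split_ifs <;> norm_num)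
        rw [sq]
        exact mul_le_mul e1 e5 e6 hL
      · rw [if_neg hij]
        by_cases hP : i.2 ∈ P
        · by_cases hQ : j.2 ∈ Q
          · have h5 := hdis i.2 hP j.2 hQ hij i.1 hi.1 j.1 hj.1
            rw [show i.2 + j.2 + vd b i.1 + vd b j.1 = i.2 + vd b i.1 + (j.2 + vd b j.1) by ring] at h5
            rw [if_neg h5, mul_zero, mul_zero]
          · have : lp Q j.2 = 0 := if_neg hQ
            rw [this, zero_mul, mul_zero]
        · have : lp P i.2 = 0 := if_neg hP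
          rw [this, zero_mul]
    refine (sum_le_sum h4).trans ?_
    rw [sum_product]
    have h5 : ∀ o ∈ Ω, ∑ n ∈ Icc 1 M, (if i.2 = n then Real.log M ^ 2 else 0) ≤ Real.log M ^ 2 := by
      intro o _
      rw [sum_ite_eq]
      split_ifs
      · exact le_rfl
      · positivity
    refine (sum_le_sum h5).trans (le_of_eq ?_)
    rw [sum_const, nsmul_eq_mul]
  refine (sum_le_sum h2).trans (le_of_eq ?_)
  rw [sum_const, card_product, Nat.card_Icc, nsmul_eq_mul, Nat.add_sub_cancel]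
  push_cast
  ring

/-- **The main inequality.** -/
theorem key2 (hC : S_CYC) (b K : ℕ) (hb : 2 ≤ b) (Ω : Finset (ℕ × (ι → ℕ × ℕ))) (κ : ℝ) (hκ : 0 ≤ κ) (hκ1 : κ ≤ 1)
    (hS : ∑ y ∈ Icc 1 (b ^ K), (WW b (fun n => ArithmeticFunction.vonMangoldt n) (b ^ K) Ω y - Ω.card * ph b y) ^ 2 ≤
      κ * ((Ω.card : ℝ) ^ 2 * ((b ^ K : ℕ) : ℝ)))
    (P Q A : Finset ℕ) (hA : A ⊆ range (b ^ K)) (η : ℝ)
    (hrob : ∀ e < K, ((A.filter fun a => (a + (b ^ K - b ^ e)) % b ^ K ∉ A).card : ℝ) ≤ η * (b : ℝ) ^ K)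
    (hdis : ∀ p ∈ P, ∀ q ∈ Q, p ≠ q → ∀ o ∈ Ω, ∀ o' ∈ Ω, (p + q + vd b o + vd b o') % b ^ K ∉ A)
    (hη : 0 ≤ η) (mP mQ : ℝ) (hmP0 : 0 ≤ mP) (hmQ0 : 0 ≤ mQ)
    (hmP : Ω.card * mP ≤ ∑ y ∈ range (b ^ K), WW b (lp P) (b ^ K) Ω y)
    (hmQ : Ω.card * mQ ≤ ∑ y ∈ range (b ^ K), WW b (lp Q) (b ^ K) Ω y) :
    (Ω.card : ℝ) ^ 2 * (mP * mQ * A.card / (b : ℝ) ^ K) ≤
      (Ω.card : ℝ) ^ 2 * (3 * b ^ 3 * η * (b : ℝ) ^ K * (b : ℝ) ^ K + (b : ℝ) ^ K * Real.log (b ^ K) ^ 2) := by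
  classical
  have hbr : (2 : ℝ) ≤ b := by exact_mod_cast hb
  have hO0 : (0 : ℝ) ≤ Ω.card := Nat.cast_nonneg _
  have hM0 : (0 : ℝ) < (b : ℝ) ^ K := by positivity
  set f : ℕ → ℝ := WW b (lp P) (b ^ K) Ω with hf
  set g : ℕ → ℝ := WW b (lp Q) (b ^ K) Ω with hg
  have hf0 : ∀ x, 0 ≤ f x := fun x => WW_nonneg b _ _ Ω x (fun n _ => lp_nonneg P n)
  have hg0 : ∀ x, 0 ≤ g x := fun x => WW_nonneg b _ _ Ω x (fun n _ => lp_nonneg Q n)
  have hf2 := sq_bound b K hb Ω κ hκ hκ1 hS P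
  have hg2 := sq_bound b K hb Ω κ hκ hκ1 hS Q
  rw [← hf] at hf2
  rw [← hg] at hg2
  set B : ℝ := 3 * b ^ 2 * ((Ω.card : ℝ) ^ 2 * (b : ℝ) ^ K) with hB
  have hB0 : 0 ≤ B := by positivity
  have hcyc := hC b K hb f g A η hA hη hrob
  have hdiag := diag2 b (b ^ K) Ω P Q A hdis
  rw [← hf, ← hg] at hdiag
  push_cast at hdiag
  -- the main term
  have hmain : (Ω.card : ℝ) ^ 2 * (mP * mQ * A.card / (b : ℝ) ^ K) ≤
      (∑ x ∈ range (b ^ K), f x) * (∑ x ∈ range (b ^ K), g x) * A.card / (b : ℝ) ^ K := by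
    have h1 : (Ω.card * mP) * (Ω.card * mQ) ≤ (∑ x ∈ range (b ^ K), f x) * (∑ x ∈ range (b ^ K), g x) :=
      mul_le_mul hmP hmQ (by positivity) (sum_nonneg fun x _ => hf0 x)
    have h2 : (Ω.card : ℝ) ^ 2 * (mP * mQ * A.card / (b : ℝ) ^ K) = (Ω.card * mP) * (Ω.card * mQ) * A.card / (b : ℝ) ^ K := by ring
    rw [h2]
    apply div_le_div_of_nonneg_right _ hM0.le
    exact mul_le_mul_of_nonneg_right h1 (Nat.cast_nonneg _)
  have hsq : √(∑ x ∈ range (b ^ K), f x ^ 2) * √(∑ x ∈ range (b ^ K), g x ^ 2) ≤ B := by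
    have h1 := Real.sqrt_le_sqrt hf2
    have h2 := Real.sqrt_le_sqrt hg2
    calc _ ≤ √B * √B := mul_le_mul h1 h2 (Real.sqrt_nonneg _) (Real.sqrt_nonneg _)
      _ = B := Real.mul_self_sqrt hB0
  have herr : b * η * (b : ℝ) ^ K * √(∑ x ∈ range (b ^ K), f x ^ 2) * √(∑ x ∈ range (b ^ K), g x ^ 2) ≤ b * η * (b : ℝ) ^ K * B := by
    rw [mul_assoc]
    exact mul_le_mul_of_nonneg_left hsq (by positivity)
  have habs := (abs_le.1 hcyc).1
  have hfin : (Ω.card : ℝ) ^ 2 * (mP * mQ * A.card / (b : ℝ) ^ K) ≤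
      (Ω.card : ℝ) ^ 2 * ((b : ℝ) ^ K * Real.log (b ^ K) ^ 2) + b * η * (b : ℝ) ^ K * B := by linarith
  refine hfin.trans (le_of_eq ?_)
  rw [hB]
  ring

end Omega

end Pool.Agent.H86.DA
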