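import Pool.Agent.H86.DA.Asm
import Pool.Agent.H86.DA.Key2
import Pool.Agent.H86.DA.Chn
import Pool.Agent.H86.DA.Fin2

set_option autoImplicit false

/-! Assembly: the proportion of the integers that are not represented decreases exponentially in the number of powers. -/

namespace Pool.Agent.H86.DA
open Finset
open Pool.Agent.H86.DL (vd WW ph WW_nonneg WW_mass smooth pnt_pi)

lemma sq_small (b : ℕ) (hb : 2 ≤ b) (c : ℝ) (hc : 0 < c) : ∃ K₃ : ℕ, ∀ K : ℕ, K₃ ≤ K →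
    Real.log ((b : ℝ) ^ K) ^ 2 < c * (b : ℝ) ^ K := by
  have hbr : (1 : ℝ) < b := by exact_mod_cast (by omega : 1 < b)
  have h1 := tendsto_pow_const_div_const_pow_of_one_lt 2 hbr
  have hlb : 0 < Real.log b := Real.log_pos hbr
  have h2 := h1.eventually_lt_const (show (0 : ℝ) < c / (Real.log b ^ 2) by positivity)
  obtain ⟨K₃, h3⟩ := Filter.eventually_atTop.1 h2
  refine ⟨K₃, fun K hK => ?_⟩
  have h4 := h3 K hK
  have h5 : (0 : ℝ) < (b : ℝ) ^ K := by positivity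
  rw [div_lt_div_iff₀ h5 (by positivity)] at h4
  rw [Real.log_pow]
  calc ((K : ℝ) * Real.log b) ^ 2 = (K : ℝ) ^ 2 * Real.log b ^ 2 := by ring
    _ < _ := h4

theorem scale2 (hC : S_CYC) (hMas : S_MAS) (b : ℕ) (hb : 2 ≤ b) (α : ℝ) (hα : 0 < α) :
    ∃ k₀ : ℕ, ∃ γ : ℝ, 0 < γ ∧ γ ≤ 1 / 4 ∧ ∀ (J : ℕ) (ε : ℝ), 0 < ε → 1 < ε * (1 + γ) ^ J →
      ∃ K₁ : ℕ, ∀ K : ℕ, K₁ ≤ K → ∀ P Q : Set ℕ, (∀ p ∈ P, p.Prime) → (∀ q ∈ Q, q.Prime) →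
      (∀ Y : ℕ, (b : ℝ) ^ K / 2 ≤ Y → Y < b ^ K →
        α * (Nat.primeCounting Y : ℝ) ≤ (({p : ℕ | p ∈ P ∧ p ≤ Y} : Set ℕ).ncard : ℝ) ∧
        α * (Nat.primeCounting Y : ℝ) ≤ (({q : ℕ | q ∈ Q ∧ q ≤ Y} : Set ℕ).ncard : ℝ)) →
      ∃ H : Set ℕ, (∀ h ∈ H, h ≤ 3 * b ^ K) ∧
        (∀ h ∈ H, ∃ p ∈ P, ∃ q ∈ Q, p ≠ q ∧ ∃ l, PS b k₀ l ∧ h = p + q + l) ∧
        (({n : ℕ | n < b ^ K ∧ ¬ ∃ h ∈ H, ∃ l ≤ J * b ^ K, PS b J l ∧ (h + l) % b ^ K = n} : Set ℕ).ncard : ℝ) ≤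
          ε * (b : ℝ) ^ K := by
  classical
  have hbr : (2 : ℝ) ≤ b := by exact_mod_cast hb
  obtain ⟨κ, hκdef⟩ : ∃ κ : ℝ, κ = 1 / 4 := ⟨_, rfl⟩
  have hκ0 : 0 < κ := by rw [hκdef]; norm_num
  have hκ4 : κ ≤ 1 / 4 := by rw [hκdef]
  obtain ⟨s, K₀, hs⟩ := smooth b hb κ hκ0
  obtain ⟨γ, hγ⟩ : ∃ γ : ℝ, γ = min (1 / 4) (α ^ 2 / (384 * b ^ 3)) := ⟨_, rfl⟩
  have hγ0 : 0 < γ := by rw [hγ]; exact lt_min (by norm_num) (by positivity)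
  have hγ4 : γ ≤ 1 / 4 := by rw [hγ]; exact min_le_left _ _
  have hγα : γ * (384 * b ^ 3) ≤ α ^ 2 := by
    have h1 : γ ≤ α ^ 2 / (384 * b ^ 3) := by rw [hγ]; exact min_le_right _ _
    rwa [le_div_iff₀ (by positivity)] at h1
  obtain ⟨n₀, hn₀⟩ := hMas (fun δ hδ => by
    obtain ⟨n, hn⟩ := pnt_pi δ hδ
    exact ⟨n, fun m hm => (hn m hm).2⟩) α hα
  obtain ⟨K₂, hK₂⟩ := pow_unbounded_of_one_lt (2 * (n₀ : ℝ) + 8) (by linarith : (1 : ℝ) < b)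
  refine ⟨(1 + 3 * s) + (1 + 3 * s), γ, hγ0, hγ4, fun J ε hε hJ => ?_⟩
  obtain ⟨K₃, hK₃⟩ := sq_small b hb (α ^ 2 * ε / 128) (by positivity)
  refine ⟨K₀ + K₂ + K₃, fun K hK P Q hP hQ hd => ?_⟩
  have hK2 : (2 * (n₀ : ℝ) + 8) < (b : ℝ) ^ K :=
    hK₂.trans_le (pow_le_pow_right₀ (by linarith) (by omega))
  have hK3 := hK₃ K (by omega)
  have hbK : 2 * n₀ + 8 ≤ b ^ K := by
    have : (2 * (n₀ : ℝ) + 8) ≤ (b : ℝ) ^ K := by linarith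
    exact_mod_cast this
  obtain ⟨Ω, hΩne, hΩ, hS⟩ := hs K (by omega)
  obtain ⟨T, hTdef⟩ : ∃ T, T = ⌊κ * ((b ^ K : ℕ) : ℝ)⌋₊ := ⟨_, rfl⟩
  have hT : ∀ o ∈ Ω, vd b o ≤ T := by
    intro o ho
    rw [hTdef]
    apply Nat.le_floor
    have := (hΩ o ho).2.2
    push_cast at this ⊢
    exact this
  have hTle : (T : ℝ) ≤ κ * (b : ℝ) ^ K := by
    have h1 : (T : ℝ) ≤ κ * ((b ^ K : ℕ) : ℝ) := by rw [hTdef]; exact Nat.floor_le (by positivity)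
    push_cast at h1
    exact h1
  have hM0 : (0 : ℝ) < (b : ℝ) ^ K := by positivity
  have hT4 : 4 * T ≤ b ^ K := by
    have h1 : 4 * (T : ℝ) ≤ (b : ℝ) ^ K := by nlinarith
    exact_mod_cast h1
  -- the truncated sets
  obtain ⟨Y, hY⟩ : ∃ Y, Y = b ^ K - 1 - T := ⟨_, rfl⟩
  have hYr : (Y : ℝ) = (b : ℝ) ^ K - 1 - T := by
    rw [hY, Nat.cast_sub (by omega), Nat.cast_sub (by omega)]
    push_cast
    ring
  have hM8 : (8 : ℝ) ≤ (b : ℝ) ^ K := by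
    have : (0 : ℝ) ≤ n₀ := Nat.cast_nonneg _
    linarith
  have hY2 : (b : ℝ) ^ K / 2 ≤ Y := by
    have h1 : 4 * (T : ℝ) ≤ (b : ℝ) ^ K := by exact_mod_cast hT4
    rw [hYr]
    linarith
  have hYM : Y < b ^ K := by omega
  obtain ⟨hdP, hdQ⟩ := hd Y hY2 hYM
  obtain ⟨F, hF, hFc⟩ := trunc P hP Y
  obtain ⟨G, hG, hGc⟩ := trunc Q hQ Y
  rw [← hFc] at hdP
  rw [← hGc] at hdQ
  rw [hY] at hdP hdQ
  have hmP := mass_one b K T n₀ α hα Ω hT hn₀ hbK hT4 F (fun p hp => by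
    rw [← hY]; exact (hF p hp).2) hdP
  have hmQ := mass_one b K T n₀ α hα Ω hT hn₀ hbK hT4 G (fun p hp => by
    rw [← hY]; exact (hG p hp).2) hdQ
  -- the set of sums
  refine ⟨{h | ∃ p ∈ F, ∃ q ∈ G, p ≠ q ∧ ∃ o ∈ Ω, ∃ o' ∈ Ω, h = p + q + vd b o + vd b o'}, ?_, ?_, ?_⟩
  · rintro h ⟨p, hp, q, hq, _, o, ho, o', ho', rfl⟩
    have h1 := (hF p hp).2.2
    have h2 := (hG q hq).2.2
    have h3 := hT o ho
    have h4 := hT o' ho'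
    omega
  · rintro h ⟨p, hp, q, hq, hpq, o, ho, o', ho', rfl⟩
    refine ⟨p, (hF p hp).1, q, (hG q hq).1, hpq, vd b o + vd b o', ?_, by ring⟩
    exact Pool.Agent.H86.DL.PS_add b _ _ _ _ (hΩ o ho).1 (hΩ o' ho').1
  · by_contra hcon
    have hcon' := (not_le.1 hcon).le
    obtain ⟨A, hA, hAc, hAd, hAr⟩ := chain2 b K J hb γ hγ0 _ ε hJ hcon'
    have hη : ∀ e < K, ((A.filter fun a => (a + (b ^ K - b ^ e)) % b ^ K ∉ A).card : ℝ) ≤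
        (γ * A.card / (b : ℝ) ^ K) * (b : ℝ) ^ K := by
      intro e he
      rw [div_mul_cancel₀ _ hM0.ne']
      exact hAr e he
    have hkey := key2 hC b K hb Ω κ hκ0.le (by linarith) hS F G A hA (γ * A.card / (b : ℝ) ^ K) hη (by
      intro p hp q hq hpq o ho o' ho'
      exact hAd _ ⟨p, hp, q, hq, hpq, o, ho, o', ho', rfl⟩) (by positivity) (α / 8 * (b : ℝ) ^ K) (α / 8 * (b : ℝ) ^ K)
      (by positivity) (by positivity) hmP hmQ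
    have hO : (0 : ℝ) < (Ω.card : ℝ) ^ 2 := by
      have : (0 : ℝ) < Ω.card := by exact_mod_cast hΩne.card_pos
      positivity
    have h1 := le_of_mul_le_mul_left hkey hO
    obtain ⟨M, hMdef⟩ : ∃ M : ℝ, M = (b : ℝ) ^ K := ⟨_, rfl⟩
    obtain ⟨a, ha⟩ : ∃ a : ℝ, a = (A.card : ℝ) := ⟨_, rfl⟩
    rw [← hMdef, ← ha] at h1
    rw [← hMdef, ← ha] at hAc
    rw [← hMdef] at hM0 hK3
    have h2 : α / 8 * M * (α / 8 * M) * a / M = α ^ 2 / 64 * a * M := by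
      field_simp
      ring
    have h3 : 3 * (b : ℝ) ^ 3 * (γ * a / M) * M * M = (γ * (384 * b ^ 3)) * (a / 128) * M := by
      field_simp
      ring
    rw [h2, h3] at h1
    have ha0 : 0 < a := lt_of_lt_of_le (by positivity) hAc
    have h4 : (γ * (384 * b ^ 3)) * (a / 128) * M ≤ α ^ 2 * (a / 128) * M :=
      mul_le_mul_of_nonneg_right (mul_le_mul_of_nonneg_right hγα (by positivity)) hM0.le
    have h5 : α ^ 2 / 128 * a * M ≤ Real.log M ^ 2 * M := by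
      have e1 : α ^ 2 / 64 * a * M = α ^ 2 / 128 * a * M + α ^ 2 * (a / 128) * M := by ring
      linarith
    have h6 := le_of_mul_le_mul_right h5 hM0
    have h7 : α ^ 2 / 128 * (ε * M) ≤ α ^ 2 / 128 * a := mul_le_mul_of_nonneg_left hAc (by positivity)
    have h8 : α ^ 2 / 128 * (ε * M) = α ^ 2 * ε / 128 * M := by ring
    linarith

/-- **Exponential decay.** -/
theorem exp_decay (hC : S_CYC) (hMas : S_MAS) (b : ℕ) (hb : 2 ≤ b) (α : ℝ) (hα : 0 < α) :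
    ∃ C θ : ℝ, 0 < θ ∧ ∀ k : ℕ, ∃ X₀ : ℕ, ∃ c : ℝ, 0 < c ∧ ∀ X : ℕ, X₀ ≤ X → ∀ P Q : Set ℕ,
      (∀ p ∈ P, p.Prime) → (∀ q ∈ Q, q.Prime) →
      (∀ Y : ℕ, c * X ≤ Y → Y ≤ X →
        α * (Nat.primeCounting Y : ℝ) ≤ (({p : ℕ | p ∈ P ∧ p ≤ Y} : Set ℕ).ncard : ℝ) ∧
        α * (Nat.primeCounting Y : ℝ) ≤ (({q : ℕ | q ∈ Q ∧ q ≤ Y} : Set ℕ).ncard : ℝ)) →
      (({N : ℕ | N ≤ X ∧ ¬ ∃ p ∈ P, ∃ q ∈ Q, p ≠ q ∧ ∃ k' ≤ k, ∃ e : Fin k' → ℕ, N = p + q + ∑ i, b ^ e i} : Set ℕ).ncard : ℝ) ≤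
        C * Real.exp (-(θ * k)) * X := by
  classical
  have hbr : (2 : ℝ) ≤ b := by exact_mod_cast hb
  have hb0 : (0 : ℝ) < b := by linarith
  obtain ⟨k₀, γ, hγ0, hγ4, hsc⟩ := scale2 hC hMas b hb α hα
  obtain ⟨θ, hθ⟩ : ∃ θ : ℝ, θ = Real.log (1 + γ) / b := ⟨_, rfl⟩
  have hlg : 0 < Real.log (1 + γ) := Real.log_pos (by linarith)
  have hθ0 : 0 < θ := by rw [hθ]; positivity
  obtain ⟨k₁, hk₁⟩ : ∃ k₁, k₁ = k₀ + (b - 1) := ⟨_, rfl⟩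
  refine ⟨10 * Real.exp (θ * (k₁ + b)), θ, hθ0, fun k => ?_⟩
  have hCe : 10 * Real.exp (θ * (k₁ + b)) * Real.exp (-(θ * k)) = 10 * Real.exp (θ * (k₁ + b - k)) := by
    rw [mul_assoc, ← Real.exp_add]
    congr 2
    ring
  rcases Nat.lt_or_ge k k₁ with hk | hk
  · refine ⟨1, 1, one_pos, fun X hX P Q _ _ _ => ?_⟩
    have hsub : ({N : ℕ | N ≤ X ∧ ¬ ∃ p ∈ P, ∃ q ∈ Q, p ≠ q ∧ ∃ k' ≤ k, ∃ e : Fin k' → ℕ, N = p + q + ∑ i, b ^ e i} : Set ℕ) ⊆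
        ((range (X + 1) : Finset ℕ) : Set ℕ) := by
      intro N hN
      rw [mem_coe, mem_range]
      exact Nat.lt_succ_of_le hN.1
    have h1 := Set.ncard_le_ncard hsub (finite_toSet _)
    rw [Set.ncard_coe_finset, card_range] at h1
    have h2 : (({N : ℕ | N ≤ X ∧ ¬ ∃ p ∈ P, ∃ q ∈ Q, p ≠ q ∧ ∃ k' ≤ k, ∃ e : Fin k' → ℕ, N = p + q + ∑ i, b ^ e i} : Set ℕ).ncard : ℝ) ≤
        (X : ℝ) + 1 := by exact_mod_cast h1
    have hX1 : (1 : ℝ) ≤ X := by exact_mod_cast hX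
    rw [hCe]
    have h3 : 1 ≤ Real.exp (θ * (k₁ + b - k)) := by
      apply Real.one_le_exp
      apply mul_nonneg hθ0.le
      have : (k : ℝ) ≤ k₁ := by exact_mod_cast hk.le
      linarith
    nlinarith
  · obtain ⟨J, hJ⟩ : ∃ J, J = (k - k₁) / b := ⟨_, rfl⟩
    have hJ1 : b * J ≤ k - k₁ := by rw [hJ]; exact Nat.mul_div_le _ _
    have hJ2 : k - k₁ < b * (J + 1) := by rw [hJ]; exact Nat.lt_mul_div_succ _ (by omega)
    have hpow0 : (0 : ℝ) < (1 + γ) ^ J := by positivity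
    obtain ⟨ε₁, hε₁⟩ : ∃ ε₁ : ℝ, ε₁ = 2 / (1 + γ) ^ J := ⟨_, rfl⟩
    have hε10 : 0 < ε₁ := by rw [hε₁]; positivity
    obtain ⟨K₁, hK₁⟩ := hsc J ε₁ hε10 (by
      rw [hε₁, div_mul_cancel₀ _ hpow0.ne']
      norm_num)
    refine ⟨b ^ (K₁ + J), 1 / (2 * (b : ℝ) ^ (J + 1)), by positivity, fun X hX P Q hP hQ hd => ?_⟩
    have hbJ : 0 < b ^ J := Nat.pow_pos (by omega)
    obtain ⟨Z, hZ⟩ : ∃ Z, Z = X / b ^ J := ⟨_, rfl⟩
    have hZK : b ^ K₁ ≤ Z := by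
      rw [hZ, Nat.le_div_iff_mul_le hbJ, ← pow_add]
      exact hX
    have hZ0 : Z ≠ 0 := by
      have : 0 < b ^ K₁ := Nat.pow_pos (by omega)
      omega
    obtain ⟨K, hK⟩ : ∃ K, K = Nat.log b Z := ⟨_, rfl⟩
    have hK1 : b ^ K ≤ Z := by rw [hK]; exact Nat.pow_log_le_self b hZ0
    have hK2 : Z < b ^ (K + 1) := by rw [hK]; exact Nat.lt_pow_succ_log_self (by omega) Z
    have hKK : K₁ ≤ K := by rw [hK]; exact Nat.le_log_of_pow_le (by omega) hZK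
    have hKJ : b ^ K * b ^ J ≤ X := by
      rw [← Nat.le_div_iff_mul_le hbJ, ← hZ]
      exact hK1
    have hXlt : X < b ^ (K + 1) * b ^ J := by
      rw [← Nat.div_lt_iff_lt_mul hbJ, ← hZ]
      exact hK2
    have hXlt2 : X < b ^ (J + 1) * b ^ K := by
      calc X < b ^ (K + 1) * b ^ J := hXlt
        _ = _ := by ring
    have hKX : b ^ K ≤ X := by
      calc b ^ K ≤ b ^ K * b ^ J := Nat.le_mul_of_pos_right _ hbJ
        _ ≤ X := hKJ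
    obtain ⟨H, hH3, hHr, hHc⟩ := hK₁ K hKK P Q hP hQ (by
      intro Y hY1 hY2
      refine hd Y ?_ (by omega)
      refine le_trans ?_ hY1
      rw [div_mul_eq_mul_div, one_mul, div_le_div_iff₀ (by positivity) (by norm_num)]
      have : (X : ℝ) ≤ (b : ℝ) ^ (J + 1) * (b : ℝ) ^ K := by exact_mod_cast hXlt2.le
      linarith)
    have hfin := fin2 b K J X (J + 1) ε₁ H hb hε10.le hH3 (by
      rw [Nat.div_lt_iff_lt_mul (Nat.pow_pos (by omega))]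
      exact hXlt2) hHc
    have hcount : k₀ + (J + (b - 1) * (J + 1)) ≤ k := by
      have e1 : J + (b - 1) * (J + 1) = b * J + (b - 1) := by
        obtain ⟨t, rfl⟩ : ∃ t, b = t + 1 := ⟨b - 1, by omega⟩
        rw [Nat.add_sub_cancel]
        ring
      rw [e1]
      omega
    have hsub : ({N : ℕ | N ≤ X ∧ ¬ ∃ p ∈ P, ∃ q ∈ Q, p ≠ q ∧ ∃ k' ≤ k, ∃ e : Fin k' → ℕ,
        N = p + q + ∑ i, b ^ e i} : Set ℕ) ⊆ {N : ℕ | N ≤ X ∧ ¬ ∃ h ∈ H, ∃ l, PS b (J + (b - 1) * (J + 1)) l ∧ N = h + l} := by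
      rintro N ⟨hN, hno⟩
      refine ⟨hN, ?_⟩
      rintro ⟨h, hh, l, hl, hNe⟩
      obtain ⟨p, hp, q, hq, hpq, l₀, hl₀, hhe⟩ := hHr h hh
      have h1 := Pool.Agent.H86.DL.PS_mono b _ k _ (Pool.Agent.H86.DL.PS_add b _ _ _ _ hl₀ hl) hcount
      obtain ⟨k', hk', e, he⟩ := Pool.Agent.H86.DL.PS_fin b _ _ h1
      exact hno ⟨p, hp, q, hq, hpq, k', hk', e, by rw [← he]; omega⟩
    have hfinite : ({N : ℕ | N ≤ X ∧ ¬ ∃ h ∈ H, ∃ l, PS b (J + (b - 1) * (J + 1)) l ∧ N = h + l} : Set ℕ).Finite :=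
      (Set.finite_Iic X).subset fun N hN => hN.1
    have h2 : (({N : ℕ | N ≤ X ∧ ¬ ∃ p ∈ P, ∃ q ∈ Q, p ≠ q ∧ ∃ k' ≤ k, ∃ e : Fin k' → ℕ,
        N = p + q + ∑ i, b ^ e i} : Set ℕ).ncard : ℝ) ≤
        (({N : ℕ | N ≤ X ∧ ¬ ∃ h ∈ H, ∃ l, PS b (J + (b - 1) * (J + 1)) l ∧ N = h + l} : Set ℕ).ncard : ℝ) := by
      exact_mod_cast Set.ncard_le_ncard hsub hfinite
    refine h2.trans (hfin.trans ?_)
    have hX0 : (0 : ℝ) ≤ X := Nat.cast_nonneg _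
    -- the first term
    have hpow : ((J : ℝ) + 5) * (1 + γ) ^ J ≤ 8 * (b : ℝ) ^ J := by
      have e1 : 1 + (J : ℝ) * (3 / 5) ≤ (1 + 3 / 5) ^ J := one_add_mul_le_pow (by norm_num) J
      have e2 : (J : ℝ) + 5 ≤ 8 * (8 / 5) ^ J := by
        have : (1 + 3 / 5 : ℝ) = 8 / 5 := by norm_num
        rw [this] at e1
        have : (0 : ℝ) ≤ J := Nat.cast_nonneg _
        linarith
      calc ((J : ℝ) + 5) * (1 + γ) ^ J ≤ 8 * (8 / 5) ^ J * (1 + γ) ^ J := mul_le_mul_of_nonneg_right e2 hpow0.le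
        _ = 8 * ((8 / 5) * (1 + γ)) ^ J := by rw [mul_pow]; ring
        _ ≤ 8 * (b : ℝ) ^ J := by
            apply mul_le_mul_of_nonneg_left _ (by norm_num)
            apply pow_le_pow_left₀ (by positivity)
            linarith
    have hKr : (b : ℝ) ^ K * (b : ℝ) ^ J ≤ X := by exact_mod_cast hKJ
    have hbJ0 : (0 : ℝ) < (b : ℝ) ^ J := by positivity
    have h3 : ((J : ℝ) + 5) * (b : ℝ) ^ K ≤ 8 / (1 + γ) ^ J * X := by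
      rw [div_mul_eq_mul_div, le_div_iff₀ hpow0]
      have e1 : ((J : ℝ) + 5) * (1 + γ) ^ J * (b : ℝ) ^ K ≤ 8 * (b : ℝ) ^ J * (b : ℝ) ^ K :=
        mul_le_mul_of_nonneg_right hpow (by positivity)
      nlinarith
    have h4 : ((J : ℝ) + 5) * (b : ℝ) ^ K + ε₁ * X ≤ 10 / (1 + γ) ^ J * X := by
      rw [hε₁]
      have : 10 / (1 + γ) ^ J * (X : ℝ) = 8 / (1 + γ) ^ J * X + 2 / (1 + γ) ^ J * X := by ring
      linarith
    refine h4.trans ?_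
    rw [hCe]
    apply mul_le_mul_of_nonneg_right _ hX0
    have h5 : (1 + γ) ^ J = Real.exp (θ * (b * J)) := by
      rw [hθ]
      have e1 : Real.log (1 + γ) / b * (b * J) = J * Real.log (1 + γ) := by
        field_simp
      rw [e1, ← Real.log_pow, Real.exp_log hpow0]
    rw [h5, div_eq_mul_inv, ← Real.exp_neg]
    apply mul_le_mul_of_nonneg_left _ (by norm_num)
    rw [Real.exp_le_exp]
    have h6 : (k : ℝ) ≤ k₁ + b * (J + 1) := by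
      have : k ≤ k₁ + b * (J + 1) := by omega
      exact_mod_cast this
    have h7 := mul_le_mul_of_nonneg_left h6 hθ0.le
    nlinarith

end Pool.Agent.H86.DA
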