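import Mathlib

/-!
# Project DA (helper86): two arbitrary dense sets of primes and few powers of b: almost all integers

Statements of the Mathlib-only modules. `M = b ^ K`; residues modulo `M` are the elements of `range M`.
-/

set_option autoImplicit false

namespace Pool.Agent.H86.DA

open Finset

/-- CYC. Proof. Write `e(t) = exp (2 π i t)`, `F̂(r) = ∑_{x < M} F x e(r x / M)`. Orthogonality:
`M * LHS sum = ∑_{r < M} f̂(r) ĝ(r) conj(Â(r))`, `Â(r) = ∑_{a ∈ A} e(r a / M)`. The term `r = 0` is `(∑ f) (∑ g) |A|`. For `r ≠ 0`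
(`0 < r < M`) there is `e < K` with `‖r b^e / M‖ ≥ 1 / (2 b)` (distance to the nearest integer; if `‖t‖ < 1 / (2 b)` then
`‖b t‖ = b ‖t‖`; if this held for all `e < K` then `‖r‖ = b^K ‖r / b^K‖ ≥ 1`, absurd), so `|1 - e(- r b^e / M)| ≥ 2 / b`. And
`Â(r) (1 - e(- r b^e / M)) = ∑_{a ∈ A} (e(r a / M) - e(r (a + M - b^e) / M))` is at most `2 * #{a ∈ A : (a + (M - b^e)) % M ∉ A}`
(the set `A` and its translate have equal cardinality) `≤ 2 η M`, so `|Â(r)| ≤ b η M`. By Cauchy-Schwarz and Parseval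
`∑_r |f̂| |ĝ| ≤ M √(∑ f²) √(∑ g²)`. -/
def S_CYC : Prop :=
  ∀ (b K : ℕ), 2 ≤ b → ∀ (f g : ℕ → ℝ) (A : Finset ℕ) (η : ℝ), A ⊆ range (b ^ K) → 0 ≤ η →
    (∀ e < K, ((A.filter fun a => (a + (b ^ K - b ^ e)) % b ^ K ∉ A).card : ℝ) ≤ η * (b : ℝ) ^ K) →
    |(∑ x ∈ range (b ^ K), ∑ y ∈ range (b ^ K), f x * g y * (if (x + y) % b ^ K ∈ A then 1 else 0)) -
      (∑ x ∈ range (b ^ K), f x) * (∑ x ∈ range (b ^ K), g x) * A.card / (b : ℝ) ^ K| ≤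
      b * η * (b : ℝ) ^ K * √(∑ x ∈ range (b ^ K), f x ^ 2) * √(∑ x ∈ range (b ^ K), g x ^ 2)

/-- MAS. Proof. The elements of `P` that are larger than `√Y` are at least `α π(Y) - √Y` many, with `log p ≥ (log Y) / 2`. -/
def S_MAS : Prop :=
  (∀ ε : ℝ, 0 < ε → ∃ n₀ : ℕ, ∀ n : ℕ, n₀ ≤ n → (1 - ε) * n ≤ (Nat.primeCounting n : ℝ) * Real.log n) →
  ∀ α : ℝ, 0 < α → ∃ n₀ : ℕ, ∀ Y : ℕ, n₀ ≤ Y → ∀ P : Finset ℕ, (∀ p ∈ P, p.Prime ∧ p ≤ Y) →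
    α * (Nat.primeCounting Y : ℝ) ≤ P.card → α / 4 * Y ≤ ∑ p ∈ P, Real.log p

/-- `n` is the sum of at most `k` powers of `b` (as `Pool.Agent.H86.DL.PS`) -/
def PS (b k n : ℕ) : Prop := ∃ l : List ℕ, l.length ≤ k ∧ n = (l.map (fun e => b ^ e)).sum

/-- FIN. From residues to integers. `H` is a set of integers `≤ 3 M` (the sums `p + q + d + d'`), `M = b ^ K`. If all but `ε₁ M` residues
modulo `M` are of the form `(h + l) % M`, `h ∈ H`, `l ≤ J M`, `PS b J l`, then all but `(J + 5) M + ε₁ X` of the `N ≤ X` are `h + l'` with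
`h ∈ H`, `PS b (J + X / M) l'`. Proof. If `N ≥ (J + 3) M` and `N % M` is not exceptional then `N = h + l + j M` with `j ≤ X / M`, and
`j M` is the sum of `j` copies of `b ^ K`. Each exceptional residue has at most `X / M + 1` members `≤ X`. -/
def S_FIN : Prop :=
  ∀ (b K J X : ℕ) (ε₁ : ℝ) (H : Set ℕ), 2 ≤ b → 0 ≤ ε₁ → ε₁ ≤ 1 → (∀ h ∈ H, h ≤ 3 * b ^ K) →
    (({n : ℕ | n < b ^ K ∧ ¬ ∃ h ∈ H, ∃ l ≤ J * b ^ K, PS b J l ∧ (h + l) % b ^ K = n} : Set ℕ).ncard : ℝ) ≤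
      ε₁ * (b : ℝ) ^ K →
    (({N : ℕ | N ≤ X ∧ ¬ ∃ h ∈ H, ∃ l, PS b (J + X / b ^ K) l ∧ N = h + l} : Set ℕ).ncard : ℝ) ≤
      (J + 5) * (b : ℝ) ^ K + ε₁ * X

end Pool.Agent.H86.DA
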