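import Pool.Agent.H86.L11
import Pool.Agent.H86.DA.Stm

set_option autoImplicit false
set_option linter.unusedSectionVars false

/-! Two dense sets of primes and powers of `b`: no gap structure which is nearly invariant. -/

namespace Pool.Agent.H86.DA
open Finset
open Pool.Agent.H86.DL (vd WW ph ph_le WW_mono WW_nonneg WW_pos_ex ph_nonneg)

section Omega
variable {ι : Type} [Fintype ι] [DecidableEq ι]

/-- the von Mangoldt function on `P` -/
noncomputable def lp (P : Finset ℕ) (n : ℕ) : ℝ := if n ∈ P then ArithmeticFunction.vonMangoldt n else 0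

lemma lp_nonneg (P : Finset ℕ) (n : ℕ) : 0 ≤ lp P n := by
  unfold lp
  split_ifs
  · exact ArithmeticFunction.vonMangoldt_nonneg
  · exact le_rfl

lemma lp_le (P : Finset ℕ) (n : ℕ) : lp P n ≤ ArithmeticFunction.vonMangoldt n := by
  unfold lp
  split_ifs
  · exact le_rfl
  · exact ArithmeticFunction.vonMangoldt_nonneg

lemma WW_zero (b X : ℕ) (P : Finset ℕ) (Ω : Finset (ℕ × (ι → ℕ × ℕ))) : WW b (lp P) X Ω 0 = 0 := by
  by_contra h
  obtain ⟨o, _, n, hn, h1, _⟩ := WW_pos_ex b (lp P) X Ω 0 h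
  rw [mem_Icc] at hn
  omega

lemma sq_bound (b K : ℕ) (hb : 2 ≤ b) (Ω : Finset (ℕ × (ι → ℕ × ℕ))) (κ : ℝ) (hκ : 0 ≤ κ) (hκ1 : κ ≤ 1)
    (hS : ∑ y ∈ Icc 1 (b ^ K), (WW b (fun n => ArithmeticFunction.vonMangoldt n) (b ^ K) Ω y - Ω.card * ph b y) ^ 2 ≤
      κ * ((Ω.card : ℝ) ^ 2 * ((b ^ K : ℕ) : ℝ))) (P : Finset ℕ) :
    ∑ y ∈ range (b ^ K), WW b (lp P) (b ^ K) Ω y ^ 2 ≤ 3 * b ^ 2 * ((Ω.card : ℝ) ^ 2 * (b : ℝ) ^ K) := by
  classical
  have hbr : (2 : ℝ) ≤ b := by exact_mod_cast hb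
  have hO0 : (0 : ℝ) ≤ Ω.card := Nat.cast_nonneg _
  have h1 : ∑ y ∈ range (b ^ K), WW b (lp P) (b ^ K) Ω y ^ 2 ≤ ∑ y ∈ Icc 1 (b ^ K), WW b (lp P) (b ^ K) Ω y ^ 2 := by
    have hsub : range (b ^ K) ⊆ insert 0 (Icc 1 (b ^ K)) := by
      intro x hx
      rw [mem_range] at hx
      rw [mem_insert, mem_Icc]
      omega
    refine (sum_le_sum_of_subset_of_nonneg hsub fun _ _ _ => sq_nonneg _).trans (le_of_eq ?_)
    rw [sum_insert (by simp), WW_zero]
    simp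
  refine h1.trans ?_
  have h2 : ∀ y ∈ Icc 1 (b ^ K), WW b (lp P) (b ^ K) Ω y ^ 2 ≤
      2 * ((Ω.card : ℝ) ^ 2 * b ^ 2) + 2 * (WW b (fun n => ArithmeticFunction.vonMangoldt n) (b ^ K) Ω y - Ω.card * ph b y) ^ 2 := by
    intro y _
    have e1 : WW b (lp P) (b ^ K) Ω y ≤ WW b (fun n => ArithmeticFunction.vonMangoldt n) (b ^ K) Ω y :=
      WW_mono b _ _ _ Ω y (fun n _ => lp_le P n)
    have e2 : 0 ≤ WW b (lp P) (b ^ K) Ω y := WW_nonneg b _ _ Ω y (fun n _ => lp_nonneg P n)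
    have e3 : (Ω.card : ℝ) * ph b y ≤ Ω.card * b := mul_le_mul_of_nonneg_left (ph_le b y (by omega)) hO0
    set W := WW b (fun n => ArithmeticFunction.vonMangoldt n) (b ^ K) Ω y
    set V := WW b (lp P) (b ^ K) Ω y
    have e4 : V ^ 2 ≤ (Ω.card * b + |W - Ω.card * ph b y|) ^ 2 := by
      apply pow_le_pow_left₀ e2
      have := le_abs_self (W - Ω.card * ph b y)
      linarith
    refine e4.trans ?_
    have e5 := sq_abs (W - Ω.card * ph b y)
    nlinarith [sq_nonneg (Ω.card * b - |W - Ω.card * ph b y|)]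
  have h3 := sum_le_sum h2
  rw [sum_add_distrib, sum_const, ← mul_sum, nsmul_eq_mul, Nat.card_Icc] at h3
  refine h3.trans ?_
  have hM : ((b ^ K + 1 - 1 : ℕ) : ℝ) = (b : ℝ) ^ K := by
    rw [Nat.add_sub_cancel]
    push_cast
    ring
  rw [hM]
  have hM2 : ((b ^ K : ℕ) : ℝ) = (b : ℝ) ^ K := by push_cast; ring
  rw [hM2] at hS
  have hX0 : 0 ≤ (Ω.card : ℝ) ^ 2 * (b : ℝ) ^ K := by positivity
  have h4 : κ * ((Ω.card : ℝ) ^ 2 * (b : ℝ) ^ K) ≤ 1 * ((Ω.card : ℝ) ^ 2 * (b : ℝ) ^ K) := mul_le_mul_of_nonneg_right hκ1 hX0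
  have h5 : 2 * ((Ω.card : ℝ) ^ 2 * (b : ℝ) ^ K) ≤ b ^ 2 * ((Ω.card : ℝ) ^ 2 * (b : ℝ) ^ K) :=
    mul_le_mul_of_nonneg_right (by nlinarith) hX0
  nlinarith

/-- **The main inequality.** -/
theorem key (hC : S_CYC) (b K T : ℕ) (hb : 2 ≤ b) (Ω : Finset (ℕ × (ι → ℕ × ℕ))) (κ : ℝ) (hκ : 0 ≤ κ) (hκ1 : κ ≤ 1)
    (hT : ∀ o ∈ Ω, vd b o ≤ T)
    (hS : ∑ y ∈ Icc 1 (b ^ K), (WW b (fun n => ArithmeticFunction.vonMangoldt n) (b ^ K) Ω y - Ω.card * ph b y) ^ 2 ≤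
      κ * ((Ω.card : ℝ) ^ 2 * ((b ^ K : ℕ) : ℝ)))
    (P Q A : Finset ℕ) (hA : A ⊆ range (b ^ K)) (η : ℝ)
    (hrob : ∀ e < K, ((A.filter fun a => (a + (b ^ K - b ^ e)) % b ^ K ∉ A).card : ℝ) ≤ η * (b : ℝ) ^ K)
    (hdis : ∀ p ∈ P, ∀ q ∈ Q, p ≠ q → ∀ o ∈ Ω, ∀ o' ∈ Ω, (p + q + vd b o + vd b o') % b ^ K ∉ A)
    (hη : 0 ≤ η) (mP mQ : ℝ) (hmP0 : 0 ≤ mP) (hmQ0 : 0 ≤ mQ)
    (hmP : Ω.card * mP ≤ ∑ y ∈ range (b ^ K), WW b (lp P) (b ^ K) Ω y)
    (hmQ : Ω.card * mQ ≤ ∑ y ∈ range (b ^ K), WW b (lp Q) (b ^ K) Ω y) :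
    (Ω.card : ℝ) ^ 2 * (mP * mQ * A.card / (b : ℝ) ^ K) ≤
      (Ω.card : ℝ) ^ 2 * (3 * b ^ 3 * η * (b : ℝ) ^ K * (b : ℝ) ^ K + (2 * T + 1) * (3 * b ^ 2 * (b : ℝ) ^ K)) := by
  classical
  have hbr : (2 : ℝ) ≤ b := by exact_mod_cast hb
  have hO0 : (0 : ℝ) ≤ Ω.card := Nat.cast_nonneg _
  have hM0 : (0 : ℝ) < (b : ℝ) ^ K := by positivity
  set f : ℕ → ℝ := WW b (lp P) (b ^ K) Ω with hf
  set g : ℕ → ℝ := WW b (lp Q) (b ^ K) Ω with hg
  have hf0 : ∀ x, 0 ≤ f x := fun x => WW_nonneg b _ _ Ω x (fun n _ => lp_nonneg P n)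
  have hg0 : ∀ x, 0 ≤ g x := fun x => WW_nonneg b _ _ Ω x (fun n _ => lp_nonneg Q n)
  have hf2 := sq_bound b K hb Ω κ hκ hκ1 hS P
  have hg2 := sq_bound b K hb Ω κ hκ hκ1 hS Q
  rw [← hf] at hf2
  rw [← hg] at hg2
  set B : ℝ := 3 * b ^ 2 * ((Ω.card : ℝ) ^ 2 * (b : ℝ) ^ K) with hB
  have hB0 : 0 ≤ B := by positivity
  have hcyc := hC b K hb f g A η hA hη hrob
  -- the near-diagonal
  have hdiag : (∑ x ∈ range (b ^ K), ∑ y ∈ range (b ^ K), f x * g y * (if (x + y) % b ^ K ∈ A then (1 : ℝ) else 0)) ≤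
      (2 * T + 1) * B := by
    have h1 : ∀ x ∈ range (b ^ K), ∀ y ∈ range (b ^ K), f x * g y * (if (x + y) % b ^ K ∈ A then (1 : ℝ) else 0) ≤
        (if x ≤ y + T ∧ y ≤ x + T then f x ^ 2 / 2 else 0) + (if x ≤ y + T ∧ y ≤ x + T then g y ^ 2 / 2 else 0) := by
      intro x _ y _
      by_cases hxy : x ≤ y + T ∧ y ≤ x + T
      · rw [if_pos hxy, if_pos hxy]
        have h2 : f x * g y * (if (x + y) % b ^ K ∈ A then (1 : ℝ) else 0) ≤ f x * g y := by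
          have h3 := mul_nonneg (hf0 x) (hg0 y)
          split_ifs
          · rw [mul_one]
          · rw [mul_zero]; exact h3
        have h4 := two_mul_le_add_sq (f x) (g y)
        linarith
      · rw [if_neg hxy, if_neg hxy, add_zero]
        by_cases hfx : f x = 0
        · rw [hfx]; simp
        by_cases hgy : g y = 0
        · rw [hgy]; simp
        obtain ⟨o, ho, p, hp, hpx, hfp⟩ := WW_pos_ex b (lp P) (b ^ K) Ω x hfx
        obtain ⟨o', ho', q, hq, hqy, hgq⟩ := WW_pos_ex b (lp Q) (b ^ K) Ω y hgy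
        have hpP : p ∈ P := by
          by_contra h
          exact hfp (if_neg h)
        have hqQ : q ∈ Q := by
          by_contra h
          exact hgq (if_neg h)
        have e1 := hT o ho
        have e2 := hT o' ho'
        have hpq : p ≠ q := by
          rintro rfl
          apply hxy
          omega
        have h5 := hdis p hpP q hqQ hpq o ho o' ho'
        rw [show p + q + vd b o + vd b o' = x + y by omega] at h5
        rw [if_neg h5, mul_zero]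
    have hcnt : ∀ z : ℕ, (((range (b ^ K)).filter fun y => z ≤ y + T ∧ y ≤ z + T).card : ℝ) ≤ 2 * T + 1 := by
      intro z
      have h2 : ((range (b ^ K)).filter fun y => z ≤ y + T ∧ y ≤ z + T) ⊆ Icc (z - T) (z + T) := by
        intro y hy
        rw [mem_filter] at hy
        rw [mem_Icc]
        omega
      have h3 := card_le_card h2
      rw [Nat.card_Icc] at h3
      have h4 : ((range (b ^ K)).filter fun y => z ≤ y + T ∧ y ≤ z + T).card ≤ 2 * T + 1 := by omega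
      exact_mod_cast h4
    refine (sum_le_sum fun x hx => sum_le_sum fun y hy => h1 x hx y hy).trans ?_
    simp only [sum_add_distrib]
    have hA1 : ∑ x ∈ range (b ^ K), ∑ y ∈ range (b ^ K), (if x ≤ y + T ∧ y ≤ x + T then f x ^ 2 / 2 else 0) ≤
        (2 * T + 1) * (B / 2) := by
      calc ∑ x ∈ range (b ^ K), ∑ y ∈ range (b ^ K), (if x ≤ y + T ∧ y ≤ x + T then f x ^ 2 / 2 else 0)
          = ∑ x ∈ range (b ^ K), (((range (b ^ K)).filter fun y => x ≤ y + T ∧ y ≤ x + T).card : ℝ) * (f x ^ 2 / 2) := by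
            apply sum_congr rfl
            intro x _
            rw [← sum_filter, sum_const, nsmul_eq_mul]
        _ ≤ ∑ x ∈ range (b ^ K), (2 * T + 1) * (f x ^ 2 / 2) :=
            sum_le_sum fun x _ => mul_le_mul_of_nonneg_right (hcnt x) (by positivity)
        _ = (2 * T + 1) * ((∑ x ∈ range (b ^ K), f x ^ 2) / 2) := by rw [← mul_sum, sum_div]
        _ ≤ _ := mul_le_mul_of_nonneg_left (by linarith) (by positivity)
    have hA2 : ∑ x ∈ range (b ^ K), ∑ y ∈ range (b ^ K), (if x ≤ y + T ∧ y ≤ x + T then g y ^ 2 / 2 else 0) ≤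
        (2 * T + 1) * (B / 2) := by
      rw [sum_comm]
      calc ∑ y ∈ range (b ^ K), ∑ x ∈ range (b ^ K), (if x ≤ y + T ∧ y ≤ x + T then g y ^ 2 / 2 else 0)
          = ∑ y ∈ range (b ^ K), (((range (b ^ K)).filter fun x => y ≤ x + T ∧ x ≤ y + T).card : ℝ) * (g y ^ 2 / 2) := by
            apply sum_congr rfl
            intro y _
            rw [← sum_filter, sum_const, nsmul_eq_mul]
            congr 3
            apply filter_congr
            intro x _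
            constructor
            · rintro ⟨h, h'⟩; exact ⟨h', h⟩
            · rintro ⟨h, h'⟩; exact ⟨h', h⟩
        _ ≤ ∑ y ∈ range (b ^ K), (2 * T + 1) * (g y ^ 2 / 2) :=
            sum_le_sum fun y _ => mul_le_mul_of_nonneg_right (hcnt y) (by positivity)
        _ = (2 * T + 1) * ((∑ y ∈ range (b ^ K), g y ^ 2) / 2) := by rw [← mul_sum, sum_div]
        _ ≤ _ := mul_le_mul_of_nonneg_left (by linarith) (by positivity)
    linarith
  -- the main term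
  have hmain : (Ω.card : ℝ) ^ 2 * (mP * mQ * A.card / (b : ℝ) ^ K) ≤
      (∑ x ∈ range (b ^ K), f x) * (∑ x ∈ range (b ^ K), g x) * A.card / (b : ℝ) ^ K := by
    have h1 : (Ω.card * mP) * (Ω.card * mQ) ≤ (∑ x ∈ range (b ^ K), f x) * (∑ x ∈ range (b ^ K), g x) :=
      mul_le_mul hmP hmQ (by positivity) (sum_nonneg fun x _ => hf0 x)
    have h2 : (Ω.card : ℝ) ^ 2 * (mP * mQ * A.card / (b : ℝ) ^ K) = (Ω.card * mP) * (Ω.card * mQ) * A.card / (b : ℝ) ^ K := by ring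
    rw [h2]
    apply div_le_div_of_nonneg_right _ hM0.le
    exact mul_le_mul_of_nonneg_right h1 (Nat.cast_nonneg _)
  have hsq : √(∑ x ∈ range (b ^ K), f x ^ 2) * √(∑ x ∈ range (b ^ K), g x ^ 2) ≤ B := by
    have h1 := Real.sqrt_le_sqrt hf2
    have h2 := Real.sqrt_le_sqrt hg2
    calc _ ≤ √B * √B := mul_le_mul h1 h2 (Real.sqrt_nonneg _) (Real.sqrt_nonneg _)
      _ = B := Real.mul_self_sqrt hB0
  have herr : b * η * (b : ℝ) ^ K * √(∑ x ∈ range (b ^ K), f x ^ 2) * √(∑ x ∈ range (b ^ K), g x ^ 2) ≤ b * η * (b : ℝ) ^ K * B := by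
    rw [mul_assoc]
    exact mul_le_mul_of_nonneg_left hsq (by positivity)
  have habs := (abs_le.1 hcyc).1
  have hfin : (Ω.card : ℝ) ^ 2 * (mP * mQ * A.card / (b : ℝ) ^ K) ≤ (2 * T + 1) * B + b * η * (b : ℝ) ^ K * B := by linarith
  refine hfin.trans (le_of_eq ?_)
  rw [hB]
  ring

end Omega

end Pool.Agent.H86.DA
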