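import Pool.Agent.H86.DA.Asm2

set_option autoImplicit false

/-! Three sets of primes of positive density: every large integer. -/

namespace Pool.Agent.H86.DA
open Finset
open Pool.Agent.H86.DL (vd WW ph WW_nonneg WW_mass WW_pos_ex smooth pnt_pi)

/-- the sums of an element of `R` and few powers have positive density -/
lemma support (hMas : S_MAS) (b : ℕ) (hb : 2 ≤ b) (α : ℝ) (hα : 0 < α) : ∃ k₀ K₁ : ℕ, ∀ K : ℕ, K₁ ≤ K →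
    ∀ R : Set ℕ, (∀ p ∈ R, p.Prime) →
      (∀ Y : ℕ, (b : ℝ) ^ K / 2 ≤ Y → Y < b ^ K → α * (Nat.primeCounting Y : ℝ) ≤ (({p : ℕ | p ∈ R ∧ p ≤ Y} : Set ℕ).ncard : ℝ)) →
      ∃ D : Finset ℕ, D ⊆ range (b ^ K) ∧ (∀ t ∈ D, ∃ r ∈ R, ∃ l, PS b k₀ l ∧ t = r + l) ∧
        α ^ 2 / (192 * b ^ 2) * (b : ℝ) ^ K ≤ D.card := by
  classical
  have hbr : (2 : ℝ) ≤ b := by exact_mod_cast hb
  obtain ⟨κ, hκdef⟩ : ∃ κ : ℝ, κ = 1 / 4 := ⟨_, rfl⟩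
  have hκ0 : 0 < κ := by rw [hκdef]; norm_num
  have hκ4 : κ ≤ 1 / 4 := by rw [hκdef]
  obtain ⟨s, K₀, hs⟩ := smooth b hb κ hκ0
  obtain ⟨n₀, hn₀⟩ := hMas (fun δ hδ => by
    obtain ⟨n, hn⟩ := pnt_pi δ hδ
    exact ⟨n, fun m hm => (hn m hm).2⟩) α hα
  obtain ⟨K₂, hK₂⟩ := pow_unbounded_of_one_lt (2 * (n₀ : ℝ) + 8) (by linarith : (1 : ℝ) < b)
  refine ⟨1 + 3 * s, K₀ + K₂, fun K hK R hR hd => ?_⟩
  have hK2 : (2 * (n₀ : ℝ) + 8) < (b : ℝ) ^ K :=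
    hK₂.trans_le (pow_le_pow_right₀ (by linarith) (by omega))
  have hbK : 2 * n₀ + 8 ≤ b ^ K := by
    have : (2 * (n₀ : ℝ) + 8) ≤ (b : ℝ) ^ K := by linarith
    exact_mod_cast this
  obtain ⟨Ω, hΩne, hΩ, hS⟩ := hs K (by omega)
  obtain ⟨T, hTdef⟩ : ∃ T, T = ⌊κ * ((b ^ K : ℕ) : ℝ)⌋₊ := ⟨_, rfl⟩
  have hT : ∀ o ∈ Ω, vd b o ≤ T := by
    intro o ho
    rw [hTdef]
    apply Nat.le_floor
    have := (hΩ o ho).2.2
    push_cast at this ⊢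
    exact this
  have hTle : (T : ℝ) ≤ κ * (b : ℝ) ^ K := by
    have h1 : (T : ℝ) ≤ κ * ((b ^ K : ℕ) : ℝ) := by rw [hTdef]; exact Nat.floor_le (by positivity)
    push_cast at h1
    exact h1
  have hM0 : (0 : ℝ) < (b : ℝ) ^ K := by positivity
  have hT4 : 4 * T ≤ b ^ K := by
    have h1 : 4 * (T : ℝ) ≤ (b : ℝ) ^ K := by nlinarith
    exact_mod_cast h1
  obtain ⟨Y, hY⟩ : ∃ Y, Y = b ^ K - 1 - T := ⟨_, rfl⟩
  have hYr : (Y : ℝ) = (b : ℝ) ^ K - 1 - T := by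
    rw [hY, Nat.cast_sub (by omega), Nat.cast_sub (by omega)]
    push_cast
    ring
  have hM8 : (8 : ℝ) ≤ (b : ℝ) ^ K := by
    have : (0 : ℝ) ≤ n₀ := Nat.cast_nonneg _
    linarith
  have hY2 : (b : ℝ) ^ K / 2 ≤ Y := by
    have h1 : 4 * (T : ℝ) ≤ (b : ℝ) ^ K := by exact_mod_cast hT4
    rw [hYr]
    linarith
  have hYM : Y < b ^ K := by omega
  have hdP := hd Y hY2 hYM
  obtain ⟨F, hF, hFc⟩ := trunc R hR Y
  rw [← hFc] at hdP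
  rw [hY] at hdP
  have hmP := mass_one b K T n₀ α hα Ω hT hn₀ hbK hT4 F (fun p hp => by
    rw [← hY]; exact (hF p hp).2) hdP
  have hsq := sq_bound b K hb Ω κ hκ0.le (by linarith) hS F
  obtain ⟨D, hD⟩ : ∃ D : Finset ℕ, D = (range (b ^ K)).filter (fun x => WW b (lp F) (b ^ K) Ω x ≠ 0) := ⟨_, rfl⟩
  refine ⟨D, by rw [hD]; exact filter_subset _ _, ?_, ?_⟩
  · intro t ht
    rw [hD, mem_filter] at ht
    obtain ⟨o, ho, n, hn, h1, h2⟩ := WW_pos_ex b (lp F) (b ^ K) Ω t ht.2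
    have hnF : n ∈ F := by
      by_contra h
      exact h2 (if_neg h)
    exact ⟨n, (hF n hnF).1, vd b o, (hΩ o ho).1, h1.symm⟩
  · have h1 : ∑ y ∈ range (b ^ K), WW b (lp F) (b ^ K) Ω y = ∑ y ∈ D, WW b (lp F) (b ^ K) Ω y := by
      rw [hD, sum_filter_ne_zero]
    have h2 : (∑ y ∈ D, WW b (lp F) (b ^ K) Ω y) ^ 2 ≤ D.card * ∑ y ∈ D, WW b (lp F) (b ^ K) Ω y ^ 2 := sq_sum_le_card_mul_sum_sq
    have h3 : ∑ y ∈ D, WW b (lp F) (b ^ K) Ω y ^ 2 ≤ ∑ y ∈ range (b ^ K), WW b (lp F) (b ^ K) Ω y ^ 2 :=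
      sum_le_sum_of_subset_of_nonneg (by rw [hD]; exact filter_subset _ _) fun _ _ _ => sq_nonneg _
    rw [h1] at hmP
    have hO : (0 : ℝ) < Ω.card := by exact_mod_cast hΩne.card_pos
    have h4 : (Ω.card * (α / 8 * (b : ℝ) ^ K)) ^ 2 ≤ (∑ y ∈ D, WW b (lp F) (b ^ K) Ω y) ^ 2 :=
      pow_le_pow_left₀ (by positivity) hmP 2
    have h5 : (Ω.card * (α / 8 * (b : ℝ) ^ K)) ^ 2 ≤ D.card * (3 * b ^ 2 * ((Ω.card : ℝ) ^ 2 * (b : ℝ) ^ K)) :=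
      h4.trans (h2.trans (mul_le_mul_of_nonneg_left (h3.trans hsq) (Nat.cast_nonneg _)))
    have h6 : (α ^ 2 / (192 * b ^ 2) * (b : ℝ) ^ K) * (3 * b ^ 2 * ((Ω.card : ℝ) ^ 2 * (b : ℝ) ^ K)) =
        (Ω.card * (α / 8 * (b : ℝ) ^ K)) ^ 2 := by
      field_simp
      ring
    rw [← h6] at h5
    exact le_of_mul_le_mul_right h5 (by positivity)

/-- **Three sets of primes.** -/
theorem ternary (hC : S_CYC) (hMas : S_MAS) (hFin : S_FIN) (b : ℕ) (hb : 2 ≤ b) (α : ℝ) (hα : 0 < α) :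
    ∃ K N₀ : ℕ, ∃ c : ℝ, 0 < c ∧ ∀ N : ℕ, N₀ ≤ N → ∀ P Q R : Set ℕ,
      (∀ p ∈ P, p.Prime) → (∀ q ∈ Q, q.Prime) → (∀ r ∈ R, r.Prime) →
      (∀ Y : ℕ, c * N ≤ Y → Y ≤ N →
        α * (Nat.primeCounting Y : ℝ) ≤ (({p : ℕ | p ∈ P ∧ p ≤ Y} : Set ℕ).ncard : ℝ) ∧
        α * (Nat.primeCounting Y : ℝ) ≤ (({q : ℕ | q ∈ Q ∧ q ≤ Y} : Set ℕ).ncard : ℝ) ∧
        α * (Nat.primeCounting Y : ℝ) ≤ (({r : ℕ | r ∈ R ∧ r ≤ Y} : Set ℕ).ncard : ℝ)) →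
      ∃ p ∈ P, ∃ q ∈ Q, ∃ r ∈ R, p ≠ q ∧ ∃ k ≤ K, ∃ e : Fin k → ℕ, N = p + q + r + ∑ i, b ^ e i := by
  classical
  have hbr : (2 : ℝ) ≤ b := by exact_mod_cast hb
  have hb0 : (0 : ℝ) < b := by linarith
  obtain ⟨c₂, hc₂⟩ : ∃ c₂ : ℝ, c₂ = α ^ 2 / (384 * b ^ 3) := ⟨_, rfl⟩
  have hc₂0 : 0 < c₂ := by rw [hc₂]; positivity
  obtain ⟨k₀, K₁, hsup⟩ := support hMas b hb α hα
  obtain ⟨k, X₀, c, hc, hall⟩ := almost_all hC hMas hFin b hb α (c₂ / 2) hα (by positivity)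
  refine ⟨k + k₀, X₀ + 2 * b ^ K₁ + 2, min c (1 / (4 * b)), lt_min hc (by positivity), fun N hN P Q R hP hQ hR hd => ?_⟩
  have hN0 : (0 : ℝ) < N := by exact_mod_cast (by omega : 0 < N)
  obtain ⟨Z, hZ⟩ : ∃ Z, Z = N / 2 := ⟨_, rfl⟩
  have hZK : b ^ K₁ ≤ Z := by omega
  have hZ0 : Z ≠ 0 := by omega
  obtain ⟨K, hK⟩ : ∃ K, K = Nat.log b Z := ⟨_, rfl⟩
  have hK1 : b ^ K ≤ Z := by rw [hK]; exact Nat.pow_log_le_self b hZ0
  have hK2 : Z < b ^ (K + 1) := by rw [hK]; exact Nat.lt_pow_succ_log_self (by omega) Z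
  have hKK : K₁ ≤ K := by rw [hK]; exact Nat.le_log_of_pow_le (by omega) hZK
  have hN2 : (N : ℝ) ≤ 2 * b * (b : ℝ) ^ K := by
    have h1 : N ≤ 2 * b ^ (K + 1) := by omega
    have h2 : (N : ℝ) ≤ 2 * (b : ℝ) ^ (K + 1) := by exact_mod_cast h1
    rw [pow_succ'] at h2
    linarith
  obtain ⟨D, hD1, hD2, hD3⟩ := hsup K hKK R hR (by
    intro Y hY1 hY2
    refine (hd Y ?_ (by omega)).2.2
    refine le_trans ?_ hY1
    have h1 : min c (1 / (4 * b)) * (N : ℝ) ≤ 1 / (4 * b) * N := mul_le_mul_of_nonneg_right (min_le_right _ _) hN0.le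
    refine h1.trans ?_
    rw [div_mul_eq_mul_div, one_mul, div_le_div_iff₀ (by positivity) (by norm_num)]
    nlinarith)
  have hE := hall N (by omega) P Q hP hQ (by
    intro Y hY1 hY2
    have h1 := hd Y (le_trans (mul_le_mul_of_nonneg_right (min_le_left _ _) hN0.le) hY1) hY2
    exact ⟨h1.1, h1.2.1⟩)
  obtain ⟨E, hEdef⟩ : ∃ E : Set ℕ, E = {n : ℕ | n ≤ N ∧ ¬ ∃ p ∈ P, ∃ q ∈ Q, p ≠ q ∧ ∃ k' ≤ k, ∃ e : Fin k' → ℕ,
      n = p + q + ∑ i, b ^ e i} := ⟨_, rfl⟩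
  rw [← hEdef] at hE
  have hEf : E.Finite := by
    rw [hEdef]
    exact (Set.finite_Iic N).subset fun n hn => hn.1
  have hDc : c₂ * N ≤ D.card := by
    refine le_trans ?_ hD3
    have h1 : α ^ 2 / (192 * b ^ 2) * (b : ℝ) ^ K = c₂ * (2 * b * (b : ℝ) ^ K) := by
      rw [hc₂]
      field_simp
      ring
    rw [h1]
    exact mul_le_mul_of_nonneg_left hN2 hc₂0.le
  by_contra hno
  have hsub : ((D.image fun t => N - t : Finset ℕ) : Set ℕ) ⊆ E := by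
    intro n hn
    rw [mem_coe, mem_image] at hn
    obtain ⟨t, ht, rfl⟩ := hn
    rw [hEdef]
    refine ⟨Nat.sub_le _ _, ?_⟩
    rintro ⟨p, hp, q, hq, hpq, k', hk', e, he⟩
    apply hno
    obtain ⟨r, hr, l, hl, htl⟩ := hD2 t ht
    have htN : t ≤ N := by
      have := mem_range.1 (hD1 ht)
      omega
    have h1 : PS b k (∑ i, b ^ e i) := by
      have h2 := Pool.Agent.H86.DL.PS_sum b (Finset.univ : Finset (Fin k')) (fun i => b ^ e i)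
        (fun i _ => Pool.Agent.H86.DL.PS_pow b (e i))
      rw [Finset.card_univ, Fintype.card_fin] at h2
      exact Pool.Agent.H86.DL.PS_mono b _ _ _ h2 hk'
    obtain ⟨k'', hk'', e', he'⟩ := Pool.Agent.H86.DL.PS_fin b _ _ (Pool.Agent.H86.DL.PS_add b _ _ _ _ h1 hl)
    exact ⟨p, hp, q, hq, r, hr, hpq, k'', hk'', e', by rw [← he']; omega⟩
  have hcard := Set.ncard_le_ncard hsub hEf
  rw [Set.ncard_coe_finset, card_image_of_injOn (by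
    intro t ht t' ht' htt
    have h1 := mem_range.1 (hD1 ht)
    have h2 := mem_range.1 (hD1 ht')
    simp only at htt
    omega)] at hcard
  have hcard' : (D.card : ℝ) ≤ E.ncard := by exact_mod_cast hcard
  nlinarith

end Pool.Agent.H86.DA
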